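import Mathlib

/-!
# Block gluing functions of two-dimensional subshifts: definitions
-/

set_option autoImplicit false

open Filter Topology

namespace Pool.Agent.Helper60.BlockGluing

variable {A : Type}

/-- The shift by the vector `v`: `σ^v(x)_m = x_{m+v}`. -/
def shift (v : ℤ × ℤ) (x : ℤ × ℤ → A) : ℤ × ℤ → A := fun m => x (m + v)

/-- `X` is a subshift: closed in the product topology (`A` discrete) and invariant under all
shifts. -/
def IsSubshift [TopologicalSpace A] [DiscreteTopology A] (X : Set (ℤ × ℤ → A)) : Prop :=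
  IsClosed X ∧ ∀ v, ∀ x ∈ X, shift v x ∈ X

/-- The restriction of the configuration `x` to the square `{0, …, n-1}²`. -/
def block (n : ℕ) (x : ℤ × ℤ → A) : Fin n × Fin n → A := fun m => x ((m.1 : ℕ), (m.2 : ℕ))

/-- `L_n(X)`: the globally valid patterns with domain `{0, …, n-1}²`. -/
def lang (X : Set (ℤ × ℤ → A)) (n : ℕ) : Set (Fin n × Fin n → A) := block n '' X

/-- For every gap `k' ≥ k` and all `p, q ∈ L_n(X)` the set
`X ∩ [p] ∩ σ^{(-(n+k'),0)}[q]` is non-empty. -/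
def GluesH (X : Set (ℤ × ℤ → A)) (n k : ℕ) : Prop :=
  ∀ k' ≥ k, ∀ p ∈ lang X n, ∀ q ∈ lang X n,
    ∃ x ∈ X, block n x = p ∧ block n (shift (((n + k' : ℕ) : ℤ), 0) x) = q

/-- For every gap `k' ≥ k` and all `p, q ∈ L_n(X)` the set
`X ∩ [p] ∩ σ^{(0,-(n+k'))}[q]` is non-empty. -/
def GluesV (X : Set (ℤ × ℤ → A)) (n k : ℕ) : Prop :=
  ∀ k' ≥ k, ∀ p ∈ lang X n, ∀ q ∈ lang X n,
    ∃ x ∈ X, block n x = p ∧ block n (shift (0, ((n + k' : ℕ) : ℤ)) x) = q

/-- The horizontal block gluing function `B_H : ℕ → ℕ ∪ {∞}`. -/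
noncomputable def gluingH (X : Set (ℤ × ℤ → A)) (n : ℕ) : ℕ∞ :=
  ⨅ (k : ℕ) (_ : GluesH X n k), (k : ℕ∞)

/-- The vertical block gluing function `B_V : ℕ → ℕ ∪ {∞}`. -/
noncomputable def gluingV (X : Set (ℤ × ℤ → A)) (n : ℕ) : ℕ∞ :=
  ⨅ (k : ℕ) (_ : GluesV X n k), (k : ℕ∞)

/-- The block gluing function `B(n) = max (B_H(n)) (B_V(n))`. -/
noncomputable def gluing (X : Set (ℤ × ℤ → A)) (n : ℕ) : ℕ∞ := max (gluingH X n) (gluingV X n)

/-- `h` is the topological entropy of `X`: `h = lim_k (1/k²) log |L_k(X)|`. -/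
def HasEntropy (X : Set (ℤ × ℤ → A)) (h : ℝ) : Prop :=
  Tendsto (fun k : ℕ => Real.log (Nat.card (lang X k)) / (k : ℝ) ^ 2) atTop (𝓝 h)

/-- `d` is the entropy dimension of `X`: `d = lim_k log log |L_k(X)| / log k`. -/
def HasEntropyDimension (X : Set (ℤ × ℤ → A)) (d : ℝ) : Prop :=
  Tendsto (fun k : ℕ => Real.log (Real.log (Nat.card (lang X k))) / Real.log k) atTop (𝓝 d)

end Pool.Agent.Helper60.BlockGluing
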