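import Mathlib
import Pool.Agent.Helper60.BlockGluingDefs

set_option autoImplicit false
set_option linter.unusedTactic false

open Filter Topology

namespace Pool.Agent.Helper60.BlockGluing

variable {A : Type}

/-! ### Basic facts -/

lemma shift_apply (v : ℤ × ℤ) (x : ℤ × ℤ → A) (m : ℤ × ℤ) : shift v x m = x (m + v) := rfl

lemma shift_shift (v w : ℤ × ℤ) (x : ℤ × ℤ → A) : shift v (shift w x) = shift (v + w) x := by
  funext m
  simp only [shift_apply, add_assoc]

/-- `x` and `y` agree on the square of side `n` when placed at `v` and `w`. -/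
lemma block_shift_eq_iff (n : ℕ) (v w : ℤ × ℤ) (x y : ℤ × ℤ → A) :
    block n (shift v x) = block n (shift w y) ↔
      ∀ i j : ℕ, i < n → j < n → x ((i : ℤ) + v.1, (j : ℤ) + v.2) = y ((i : ℤ) + w.1, (j : ℤ) + w.2) := by
  constructor
  · intro h i j hi hj
    exact congrFun h (⟨i, hi⟩, ⟨j, hj⟩)
  · intro h
    funext m
    exact h m.1 m.2 m.1.2 m.2.2

lemma block_eq_iff (n : ℕ) (x y : ℤ × ℤ → A) :
    block n x = block n y ↔
      ∀ i j : ℕ, i < n → j < n → x ((i : ℤ), (j : ℤ)) = y ((i : ℤ), (j : ℤ)) := by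
  constructor
  · intro h i j hi hj
    exact congrFun h (⟨i, hi⟩, ⟨j, hj⟩)
  · intro h
    funext m
    exact h m.1 m.2 m.1.2 m.2.2

lemma GluesH.mono {X : Set (ℤ × ℤ → A)} {n k l : ℕ} (h : GluesH X n k) (hkl : k ≤ l) :
    GluesH X n l := fun k' hk' => h k' (le_trans hkl hk')

lemma GluesV.mono {X : Set (ℤ × ℤ → A)} {n k l : ℕ} (h : GluesV X n k) (hkl : k ≤ l) :
    GluesV X n l := fun k' hk' => h k' (le_trans hkl hk')

lemma gluesH_of_le {X : Set (ℤ × ℤ → A)} {n k : ℕ} (h : gluingH X n ≤ k) : GluesH X n k := by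
  by_contra hcon
  have h1 : ((k + 1 : ℕ) : ℕ∞) ≤ gluingH X n := by
    unfold gluingH
    refine le_iInf₂ fun l hl => ?_
    have : k < l := by
      by_contra hlk
      exact hcon (hl.mono (not_lt.1 hlk))
    exact_mod_cast this
  have h2 := h1.trans h
  have h3 : k + 1 ≤ k := by exact_mod_cast h2
  omega

lemma gluesV_of_le {X : Set (ℤ × ℤ → A)} {n k : ℕ} (h : gluingV X n ≤ k) : GluesV X n k := by
  by_contra hcon
  have h1 : ((k + 1 : ℕ) : ℕ∞) ≤ gluingV X n := by
    unfold gluingV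
    refine le_iInf₂ fun l hl => ?_
    have : k < l := by
      by_contra hlk
      exact hcon (hl.mono (not_lt.1 hlk))
    exact_mod_cast this
  have h2 := h1.trans h
  have h3 : k + 1 ≤ k := by exact_mod_cast h2
  omega

lemma glues_of_le {X : Set (ℤ × ℤ → A)} {n k : ℕ} (h : gluing X n ≤ k) :
    GluesH X n k ∧ GluesV X n k :=
  ⟨gluesH_of_le ((le_max_left _ _).trans h), gluesV_of_le ((le_max_right _ _).trans h)⟩

lemma gluing_le_of_glues {X : Set (ℤ × ℤ → A)} {n k : ℕ} (h₁ : GluesH X n k) (h₂ : GluesV X n k) :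
    gluing X n ≤ k :=
  max_le (iInf₂_le k h₁) (iInf₂_le k h₂)

lemma at_eq (w : ℤ × ℤ → A) {a b a' b' : ℤ} (h₁ : a = a') (h₂ : b = b') :
    w (a, b) = w (a', b') := by rw [h₁, h₂]

section Shift

variable {X : Set (ℤ × ℤ → A)} (hX : ∀ v, ∀ x ∈ X, shift v x ∈ X)

include hX

lemma GluesH.of_succ {n k : ℕ} (h : GluesH X (n + 1) k) : GluesH X n k := by
  rintro k' hk' p ⟨x, hx, rfl⟩ q ⟨y, hy, rfl⟩
  obtain ⟨z, hz, hz1, hz2⟩ := h k' hk' (block (n + 1) (shift (-1, 0) x)) ⟨_, hX _ x hx, rfl⟩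
    (block (n + 1) y) ⟨y, hy, rfl⟩
  refine ⟨shift (1, 0) z, hX _ z hz, ?_, ?_⟩
  · rw [block_eq_iff]
    intro i j hi hj
    have := congrFun hz1 (⟨i + 1, by omega⟩, ⟨j, by omega⟩)
    simp only [block, shift_apply, Prod.mk_add_mk] at this ⊢
    exact (at_eq z (by push_cast; ring) (by push_cast; ring)).trans
      (this.trans (at_eq x (by push_cast; ring) (by push_cast; ring)))
  · rw [shift_shift, block_eq_iff]
    intro i j hi hj
    have := congrFun hz2 (⟨i, by omega⟩, ⟨j, by omega⟩)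
    simp only [block, shift_apply, Prod.mk_add_mk] at this ⊢
    exact (at_eq z (by push_cast; ring) (by push_cast; ring)).trans this

lemma GluesV.of_succ {n k : ℕ} (h : GluesV X (n + 1) k) : GluesV X n k := by
  rintro k' hk' p ⟨x, hx, rfl⟩ q ⟨y, hy, rfl⟩
  obtain ⟨z, hz, hz1, hz2⟩ := h k' hk' (block (n + 1) (shift (0, -1) x)) ⟨_, hX _ x hx, rfl⟩
    (block (n + 1) y) ⟨y, hy, rfl⟩
  refine ⟨shift (0, 1) z, hX _ z hz, ?_, ?_⟩
  · rw [block_eq_iff]
    intro i j hi hj
    have := congrFun hz1 (⟨i, by omega⟩, ⟨j + 1, by omega⟩)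
    simp only [block, shift_apply, Prod.mk_add_mk] at this ⊢
    exact (at_eq z (by push_cast; ring) (by push_cast; ring)).trans
      (this.trans (at_eq x (by push_cast; ring) (by push_cast; ring)))
  · rw [shift_shift, block_eq_iff]
    intro i j hi hj
    have := congrFun hz2 (⟨i, by omega⟩, ⟨j, by omega⟩)
    simp only [block, shift_apply, Prod.mk_add_mk] at this ⊢
    exact (at_eq z (by push_cast; ring) (by push_cast; ring)).trans this

lemma gluing_le_succ (n : ℕ) : gluing X n ≤ gluing X (n + 1) := by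
  rcases eq_or_ne (gluing X (n + 1)) ⊤ with h | h
  · rw [h]; exact le_top
  · obtain ⟨k, hk⟩ := ENat.ne_top_iff_exists.1 h
    have := glues_of_le (le_of_eq hk.symm)
    rw [← hk]
    exact gluing_le_of_glues (GluesH.of_succ hX this.1) (GluesV.of_succ hX this.2)

lemma gluing_mono : Monotone (gluing X) := monotone_nat_of_le_succ (gluing_le_succ hX)

/-- Four blocks can be glued into a `2 × 2` array. -/
lemma exists_four {n g₁ g₂ : ℕ} (h₁ : GluesH X n g₁) (h₂ : GluesV X (2 * n + g₁) g₂)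
    {p₁ p₂ q₁ q₂ : Fin n × Fin n → A} (hp₁ : p₁ ∈ lang X n) (hp₂ : p₂ ∈ lang X n)
    (hq₁ : q₁ ∈ lang X n) (hq₂ : q₂ ∈ lang X n) :
    ∃ z ∈ X, block n z = p₁ ∧ block n (shift (((n + g₁ : ℕ) : ℤ), 0) z) = p₂ ∧
      block n (shift (0, ((n + g₂ : ℕ) : ℤ)) z) = q₁ ∧
      block n (shift (((n + g₁ : ℕ) : ℤ), ((n + g₂ : ℕ) : ℤ)) z) = q₂ := by
  obtain ⟨x, hx, hx1, hx2⟩ := h₁ g₁ le_rfl p₁ hp₁ p₂ hp₂
  obtain ⟨y, hy, hy1, hy2⟩ := h₁ g₁ le_rfl q₁ hq₁ q₂ hq₂
  obtain ⟨z, hz, hz1, hz2⟩ := h₂ g₂ le_rfl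
    (block (2 * n + g₁) (shift (0, -((n + g₁ : ℕ) : ℤ)) x)) ⟨_, hX _ x hx, rfl⟩
    (block (2 * n + g₁) y) ⟨y, hy, rfl⟩
  have hz1' : ∀ i j : ℕ, i < 2 * n + g₁ → j < n →
      z ((i : ℤ), (j : ℤ) + ((n + g₁ : ℕ) : ℤ)) = x ((i : ℤ), (j : ℤ)) := by
    intro i j hi hj
    have := congrFun hz1 (⟨i, hi⟩, ⟨j + (n + g₁), by omega⟩)
    simp only [block, shift_apply, Prod.mk_add_mk] at this
    exact (at_eq z (by push_cast; ring) (by push_cast; ring)).trans
      (this.trans (at_eq x (by push_cast; ring) (by push_cast; ring)))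
  have hz2' : ∀ i j : ℕ, i < 2 * n + g₁ → j < 2 * n + g₁ →
      z ((i : ℤ), (j : ℤ) + ((2 * n + g₁ + g₂ : ℕ) : ℤ)) = y ((i : ℤ), (j : ℤ)) := by
    intro i j hi hj
    have := congrFun hz2 (⟨i, hi⟩, ⟨j, hj⟩)
    simp only [block, shift_apply, Prod.mk_add_mk, add_zero] at this
    exact this
  refine ⟨shift (0, ((n + g₁ : ℕ) : ℤ)) z, hX _ z hz, ?_, ?_, ?_, ?_⟩
  · rw [← hx1, block_eq_iff]
    intro i j hi hj
    simp only [shift_apply, Prod.mk_add_mk, add_zero]
    exact hz1' i j (by omega) hj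
  · rw [← hx2, shift_shift, block_shift_eq_iff]
    intro i j hi hj
    have := hz1' (i + (n + g₁)) j (by omega) hj
    exact (at_eq z (by simp) (by simp)).trans
      (this.trans (at_eq x (by push_cast; ring) (by push_cast; ring)))
  · rw [← hy1, shift_shift, block_eq_iff]
    intro i j hi hj
    have := hz2' i j (by omega) (by omega)
    simp only [shift_apply, Prod.mk_add_mk]
    exact (at_eq z (by push_cast; ring) (by push_cast; ring)).trans this
  · rw [← hy2, shift_shift, block_shift_eq_iff]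
    intro i j hi hj
    have := hz2' (i + (n + g₁)) j (by omega) (by omega)
    refine (at_eq z ?_ ?_).trans (this.trans (at_eq y (by push_cast; ring) (by push_cast; ring)))
    · simp
    · simp only [Prod.mk_add_mk]; push_cast; ring

end Shift

/-! ### Counting -/

instance [Finite A] (X : Set (ℤ × ℤ → A)) (n : ℕ) : Finite (lang X n) := inferInstance

/-- the number of globally valid `n × n` patterns -/
noncomputable def N (X : Set (ℤ × ℤ → A)) (n : ℕ) : ℕ := Nat.card (lang X n)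

lemma N_mono [Finite A] (X : Set (ℤ × ℤ → A)) : Monotone (N X) := by
  apply monotone_nat_of_le_succ
  intro n
  let r : (Fin (n + 1) × Fin (n + 1) → A) → (Fin n × Fin n → A) :=
    fun p m => p (m.1.castSucc, m.2.castSucc)
  have hr : lang X n = r '' lang X (n + 1) := by
    ext p
    constructor
    · rintro ⟨x, hx, rfl⟩
      exact ⟨_, ⟨x, hx, rfl⟩, rfl⟩
    · rintro ⟨_, ⟨x, hx, rfl⟩, rfl⟩
      exact ⟨x, hx, rfl⟩
  show Nat.card (lang X n) ≤ Nat.card (lang X (n + 1))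
  rw [hr]
  exact Nat.card_image_le (Set.toFinite _)

lemma N_pow_four_le [Finite A] {X : Set (ℤ × ℤ → A)} (hX : ∀ v, ∀ x ∈ X, shift v x ∈ X)
    {n g₁ g₂ M : ℕ} (h₁ : GluesH X n g₁) (h₂ : GluesV X (2 * n + g₁) g₂)
    (hM₁ : 2 * n + g₁ ≤ M) (hM₂ : 2 * n + g₂ ≤ M) : N X n ^ 4 ≤ N X M := by
  have key : ∀ s : lang X n × lang X n × lang X n × lang X n, ∃ z ∈ X,
      block n z = s.1.1 ∧ block n (shift (((n + g₁ : ℕ) : ℤ), 0) z) = s.2.1.1 ∧
      block n (shift (0, ((n + g₂ : ℕ) : ℤ)) z) = s.2.2.1.1 ∧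
      block n (shift (((n + g₁ : ℕ) : ℤ), ((n + g₂ : ℕ) : ℤ)) z) = s.2.2.2.1 := by
    rintro ⟨⟨p₁, hp₁⟩, ⟨p₂, hp₂⟩, ⟨q₁, hq₁⟩, ⟨q₂, hq₂⟩⟩
    exact exists_four hX h₁ h₂ hp₁ hp₂ hq₁ hq₂
  choose z hzX hz using key
  let F : lang X n × lang X n × lang X n × lang X n → lang X M :=
    fun s => ⟨block M (z s), z s, hzX s, rfl⟩
  have hF : Function.Injective F := by
    intro s t hst
    have hst' : block M (z s) = block M (z t) := congrArg Subtype.val hst
    rw [block_eq_iff] at hst'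
    obtain ⟨a1, a2, a3, a4⟩ := hz s
    obtain ⟨b1, b2, b3, b4⟩ := hz t
    have c1 : s.1 = t.1 := by
      apply Subtype.ext
      rw [← a1, ← b1, block_eq_iff]
      intro i j hi hj
      exact hst' i j (by omega) (by omega)
    have c2 : s.2.1 = t.2.1 := by
      apply Subtype.ext
      rw [← a2, ← b2, block_shift_eq_iff]
      intro i j hi hj
      have := hst' (i + (n + g₁)) j (by omega) (by omega)
      push_cast at this ⊢
      simpa using this
    have c3 : s.2.2.1 = t.2.2.1 := by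
      apply Subtype.ext
      rw [← a3, ← b3, block_shift_eq_iff]
      intro i j hi hj
      have := hst' i (j + (n + g₂)) (by omega) (by omega)
      push_cast at this ⊢
      simpa using this
    have c4 : s.2.2.2 = t.2.2.2 := by
      apply Subtype.ext
      rw [← a4, ← b4, block_shift_eq_iff]
      intro i j hi hj
      have := hst' (i + (n + g₁)) (j + (n + g₂)) (by omega) (by omega)
      push_cast at this ⊢
      exact this
    exact Prod.ext c1 (Prod.ext c2 (Prod.ext c3 c4))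
  have := Nat.card_le_card_of_injective F hF
  simp only [Nat.card_prod] at this
  calc N X n ^ 4 = N X n * (N X n * (N X n * N X n)) := by ring
    _ ≤ N X M := this

lemma two_le_N [Finite A] {X : Set (ℤ × ℤ → A)} (hX : ∀ v, ∀ x ∈ X, shift v x ∈ X)
    (h2 : X.Nontrivial) {n : ℕ} (hn : 1 ≤ n) : 2 ≤ N X n := by
  obtain ⟨x, hx, y, hy, hxy⟩ := h2
  obtain ⟨v, hv⟩ := Function.ne_iff.1 hxy
  have hne : block n (shift v x) ≠ block n (shift v y) := by
    intro h
    have := congrFun h (⟨0, hn⟩, ⟨0, hn⟩)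
    simp only [block, shift_apply] at this
    apply hv
    have e : ((((0 : ℕ) : ℤ), ((0 : ℕ) : ℤ)) + v) = v := by
      ext <;> simp
    simpa only [e] using this
  have : Nontrivial (lang X n) :=
    ⟨⟨⟨_, _, hX v x hx, rfl⟩, ⟨_, _, hX v y hy, rfl⟩, fun h => hne (congrArg Subtype.val h)⟩⟩
  exact Finite.one_lt_card

lemma N_mul_le [Finite A] {X : Set (ℤ × ℤ → A)} (hX : ∀ v, ∀ x ∈ X, shift v x ∈ X)
    (m k : ℕ) : N X (m * k) ≤ N X k ^ (m ^ 2) := by
  have key : ∀ p : lang X (m * k), ∃ x ∈ X, block (m * k) x = p.1 := fun p => p.2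
  choose x hxX hx using key
  let F : lang X (m * k) → (Fin m × Fin m → lang X k) :=
    fun p s => ⟨block k (shift ((((s.1 : ℕ) * k : ℕ) : ℤ), (((s.2 : ℕ) * k : ℕ) : ℤ)) (x p)),
      _, hX _ _ (hxX p), rfl⟩
  have hF : Function.Injective F := by
    intro p q hpq
    apply Subtype.ext
    rw [← hx p, ← hx q, block_eq_iff]
    intro i j hi hj
    have hk : 0 < k := by
      rcases Nat.eq_zero_or_pos k with h | h
      · subst h; simp at hi
      · exact h
    have hi1 : i / k < m := Nat.div_lt_of_lt_mul (by rwa [mul_comm] at hi)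
    have hj1 : j / k < m := Nat.div_lt_of_lt_mul (by rwa [mul_comm] at hj)
    have h1 := congrArg Subtype.val (congrFun hpq (⟨i / k, hi1⟩, ⟨j / k, hj1⟩))
    simp only [F] at h1
    rw [block_shift_eq_iff] at h1
    have h2 := h1 (i % k) (j % k) (Nat.mod_lt _ hk) (Nat.mod_lt _ hk)
    simp only [← Nat.cast_add] at h2
    rw [mul_comm (i / k) k, mul_comm (j / k) k, Nat.mod_add_div, Nat.mod_add_div] at h2
    exact h2
  have := Nat.card_le_card_of_injective F hF
  rw [Nat.card_fun, Nat.card_prod, Nat.card_fin, ← pow_two] at this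
  exact this

/-! ### Existence of the entropy -/

lemma exists_limit (a : ℕ → ℝ) (h0 : ∀ n, 0 ≤ a n) (hm : Monotone a)
    (hs : ∀ m k : ℕ, a (m * k) ≤ (m : ℝ) ^ 2 * a k) :
    ∃ h : ℝ, Tendsto (fun n : ℕ => a n / (n : ℝ) ^ 2) atTop (𝓝 h) := by
  set f : ℕ → ℝ := fun n => a n / (n : ℝ) ^ 2 with hf
  have hf0 : ∀ n, 0 ≤ f n := fun n => div_nonneg (h0 n) (by positivity)
  set S : Set ℝ := f '' {k | 1 ≤ k} with hS
  have hSne : S.Nonempty := ⟨f 1, 1, (le_refl 1 : (1 : ℕ) ≤ 1), rfl⟩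
  have hSb : BddBelow S := ⟨0, by rintro _ ⟨k, -, rfl⟩; exact hf0 k⟩
  refine ⟨sInf S, ?_⟩
  rw [Metric.tendsto_atTop]
  intro ε hε
  obtain ⟨_, ⟨k, hk, rfl⟩, hkε⟩ := exists_lt_of_csInf_lt hSne
    (show sInf S < sInf S + ε / 2 by linarith)
  have hk' : (0 : ℝ) < k := by
    have : 1 ≤ k := hk
    exact_mod_cast this
  obtain ⟨m₀, hm₀⟩ := exists_nat_gt (6 * f k / ε)
  refine ⟨(m₀ + 1) * k, fun n hn => ?_⟩
  have hm1 : m₀ + 1 ≤ n / k := (Nat.le_div_iff_mul_le hk).2 hn
  set m := n / k with hmdef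
  have hmpos : (0 : ℝ) < m := by
    have : 1 ≤ m := by omega
    exact_mod_cast this
  have hn1 : m * k ≤ n := Nat.div_mul_le_self n k
  have hn2 : n ≤ (m + 1) * k := by
    have := Nat.lt_div_mul_add (a := n) hk
    rw [← hmdef] at this
    have e : (m + 1) * k = m * k + k := by ring
    omega
  have hnpos : 1 ≤ n := by
    have : 1 ≤ m * k := Nat.mul_pos (by omega) hk
    omega
  have h1 : f n ≤ (1 + 3 / m) * f k := by
    have hn1' : (m : ℝ) * k ≤ n := by exact_mod_cast hn1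
    have hak : 0 ≤ a k := h0 k
    calc f n = a n / (n : ℝ) ^ 2 := rfl
      _ ≤ (((m + 1 : ℕ) : ℝ) ^ 2 * a k) / ((m : ℝ) * k) ^ 2 := by
          apply div_le_div₀ (by positivity)
          · exact (hm hn2).trans (hs _ _)
          · positivity
          · gcongr
      _ = ((m + 1) / m) ^ 2 * f k := by
          simp only [hf]; push_cast; field_simp
      _ ≤ (1 + 3 / m) * f k := by
          apply mul_le_mul_of_nonneg_right _ (hf0 k)
          have hm1' : (1 : ℝ) ≤ m := by exact_mod_cast (by omega : 1 ≤ m)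
          rw [div_pow, div_le_iff₀ (by positivity)]
          field_simp
          nlinarith
  have h2 : 3 / m * f k < ε / 2 := by
    have h3 : 6 * f k / ε < m := by
      have : (m₀ : ℝ) < m := by exact_mod_cast (by omega : m₀ < m)
      linarith
    rw [div_lt_iff₀ hε] at h3
    rw [div_mul_eq_mul_div, div_lt_iff₀ hmpos]
    linarith
  have h3 : sInf S ≤ f n := csInf_le hSb ⟨n, hnpos, rfl⟩
  rw [Real.dist_eq, abs_lt]
  constructor
  · linarith
  · have : f n ≤ f k + 3 / m * f k := by linarith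
    show f n - sInf S < ε
    linarith

lemma exists_entropy [Finite A] {X : Set (ℤ × ℤ → A)} (hX : ∀ v, ∀ x ∈ X, shift v x ∈ X)
    (hne : X.Nonempty) : ∃ h : ℝ, HasEntropy X h := by
  have hN : ∀ n, 1 ≤ N X n := by
    intro n
    obtain ⟨x, hx⟩ := hne
    have : Nonempty (lang X n) := ⟨⟨_, x, hx, rfl⟩⟩
    exact Nat.one_le_iff_ne_zero.2 (Nat.card_pos.ne')
  apply exists_limit (fun n => Real.log (N X n))
  · intro n
    exact Real.log_nonneg (by exact_mod_cast hN n)
  · intro m n hmn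
    apply Real.log_le_log
    · exact_mod_cast hN m
    · exact_mod_cast N_mono X hmn
  · intro m k
    have h1 : (N X (m * k) : ℝ) ≤ (N X k : ℝ) ^ (m ^ 2) := by exact_mod_cast N_mul_le hX m k
    calc Real.log (N X (m * k)) ≤ Real.log ((N X k : ℝ) ^ (m ^ 2)) := by
          apply Real.log_le_log _ h1
          exact_mod_cast hN (m * k)
      _ = (m : ℝ) ^ 2 * Real.log (N X k) := by
          rw [Real.log_pow]; push_cast; ring

/-! ### The growth sequence -/

/-- `S (k+1) = 2 S k + b (4 S k)` -/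
def S (b : ℕ → ℕ) (n₀ : ℕ) : ℕ → ℕ
  | 0 => n₀
  | k + 1 => 2 * S b n₀ k + b (4 * S b n₀ k)

lemma S_ge (b : ℕ → ℕ) (n₀ k : ℕ) : n₀ * 2 ^ k ≤ S b n₀ k := by
  induction k with
  | zero => simp [S]
  | succ k ih =>
    simp only [S, pow_succ]
    have : n₀ * (2 ^ k * 2) = 2 * (n₀ * 2 ^ k) := by ring
    omega

lemma le_S (b : ℕ → ℕ) (n₀ k : ℕ) : n₀ ≤ S b n₀ k := by
  have h1 := S_ge b n₀ k
  have h2 : n₀ * 1 ≤ n₀ * 2 ^ k := Nat.mul_le_mul_left _ Nat.one_le_two_pow
  omega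

lemma log_N_S_ge [Finite A] {X : Set (ℤ × ℤ → A)} (hX : ∀ v, ∀ x ∈ X, shift v x ∈ X)
    (h2 : X.Nontrivial) {b : ℕ → ℕ} (hb : ∀ n, gluing X n ≤ b n) (hbm : Monotone b) {n₀ : ℕ}
    (hn₀ : 1 ≤ n₀) (hbn : ∀ n, n₀ ≤ n → b n ≤ 2 * n) (k : ℕ) :
    4 ^ k * Real.log 2 ≤ Real.log (N X (S b n₀ k)) := by
  induction k with
  | zero =>
    simp only [S, pow_zero, one_mul]
    apply Real.log_le_log (by norm_num)
    exact_mod_cast two_le_N hX h2 hn₀
  | succ k ih =>
    set n := S b n₀ k with hn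
    have hnn₀ : n₀ ≤ n := le_S b n₀ k
    have h1 := (glues_of_le (hb n)).1
    have h3 := (glues_of_le (hb (2 * n + b n))).2
    have hbn' := hbn n hnn₀
    have hle : b (2 * n + b n) ≤ b (4 * n) := hbm (by omega)
    have hle' : b n ≤ b (4 * n) := hbm (by omega)
    have h4 : N X n ^ 4 ≤ N X (2 * n + b (4 * n)) :=
      N_pow_four_le hX h1 h3 (by omega) (by omega)
    have hNpos : 0 < N X n := lt_of_lt_of_le (by norm_num) (two_le_N hX h2 (by omega))
    have h5 : ((N X n : ℝ)) ^ 4 ≤ N X (2 * n + b (4 * n)) := by exact_mod_cast h4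
    calc (4 : ℝ) ^ (k + 1) * Real.log 2 = 4 * (4 ^ k * Real.log 2) := by ring
      _ ≤ 4 * Real.log (N X n) := by linarith
      _ = Real.log ((N X n : ℝ) ^ 4) := by rw [Real.log_pow]; norm_num
      _ ≤ Real.log (N X (2 * n + b (4 * n))) := by
          apply Real.log_le_log _ h5
          have : (0 : ℝ) < N X n := by exact_mod_cast hNpos
          positivity

/-- Summable case: the growth sequence is `O(2^k)`. -/
lemma S_le_of_summable {b : ℕ → ℕ} (hbm : Monotone b) {n₀ : ℕ} (hn₀ : 1 ≤ n₀)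
    (hsum : Summable (fun j : ℕ => (b (2 ^ j) : ℝ) / 2 ^ j)) (k : ℕ) :
    (S b n₀ k : ℝ) ≤ n₀ * Real.exp (4 * ∑' j : ℕ, (b (2 ^ j) : ℝ) / 2 ^ j) * 2 ^ k := by
  set β : ℕ → ℝ := fun j => (b (2 ^ j) : ℝ) / 2 ^ j with hβ
  have hβ0 : ∀ j, 0 ≤ β j := fun j => by positivity
  set J : ℕ → ℕ := fun i => Nat.log 2 (S b n₀ i) + 3 with hJ
  have hSpos : ∀ i, 1 ≤ S b n₀ i := fun i => hn₀.trans (le_S b n₀ i)
  have hJmono : StrictMono J := by
    apply strictMono_nat_of_lt_succ
    intro i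
    simp only [hJ]
    have h1 : Nat.log 2 (S b n₀ i) + 1 ≤ Nat.log 2 (S b n₀ (i + 1)) := by
      rw [← Nat.log_mul_base (by norm_num) (by have := hSpos i; omega)]
      apply Nat.log_mono_right
      simp only [S]
      omega
    omega
  have hstep : ∀ i, (S b n₀ (i + 1) : ℝ) ≤ 2 * S b n₀ i * Real.exp (4 * β (J i)) := by
    intro i
    set n := S b n₀ i with hn
    have hn1 : 1 ≤ n := hSpos i
    set l := Nat.log 2 n with hl
    have hl1 : 2 ^ l ≤ n := Nat.pow_log_le_self 2 (by omega)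
    have hl2 : n < 2 ^ (l + 1) := Nat.lt_pow_succ_log_self (by norm_num) n
    have hb4 : b (4 * n) ≤ b (2 ^ (l + 3)) := by
      apply hbm
      have : 2 ^ (l + 3) = 4 * 2 ^ (l + 1) := by ring
      omega
    have h1 : (b (4 * n) : ℝ) ≤ 2 * n * (4 * β (J i)) := by
      have e : β (J i) = (b (2 ^ (l + 3)) : ℝ) / 2 ^ (l + 3) := rfl
      rw [e]
      have hl1' : (2 : ℝ) ^ l ≤ n := by exact_mod_cast hl1
      have hb4' : (b (4 * n) : ℝ) ≤ b (2 ^ (l + 3)) := by exact_mod_cast hb4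
      have h2l : (0 : ℝ) < 2 ^ l := by positivity
      calc (b (4 * n) : ℝ) ≤ b (2 ^ (l + 3)) := hb4'
        _ = 2 * (2 : ℝ) ^ l * (4 * ((b (2 ^ (l + 3)) : ℝ) / 2 ^ (l + 3))) := by
            generalize (b (2 ^ (l + 3)) : ℝ) = c
            rw [pow_add]; field_simp; norm_num
        _ ≤ 2 * n * (4 * ((b (2 ^ (l + 3)) : ℝ) / 2 ^ (l + 3))) := by
            gcongr
    have h2 : (S b n₀ (i + 1) : ℝ) = 2 * n + b (4 * n) := by
      simp only [S]; push_cast; rfl
    rw [h2]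
    have h3 : 1 + 4 * β (J i) ≤ Real.exp (4 * β (J i)) := by
      have := Real.add_one_le_exp (4 * β (J i)); linarith
    have hn0 : (0 : ℝ) ≤ 2 * n := by positivity
    calc 2 * (n : ℝ) + b (4 * n) ≤ 2 * n + 2 * n * (4 * β (J i)) := by linarith
      _ = 2 * n * (1 + 4 * β (J i)) := by ring
      _ ≤ 2 * n * Real.exp (4 * β (J i)) := mul_le_mul_of_nonneg_left h3 hn0
  have hind : ∀ k, (S b n₀ k : ℝ) ≤ n₀ * Real.exp (4 * ∑ i ∈ Finset.range k, β (J i)) * 2 ^ k := by
    intro k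
    induction k with
    | zero => simp [S]
    | succ k ih =>
      rw [Finset.sum_range_succ, mul_add, Real.exp_add, pow_succ]
      calc (S b n₀ (k + 1) : ℝ) ≤ 2 * S b n₀ k * Real.exp (4 * β (J k)) := hstep k
        _ ≤ 2 * (n₀ * Real.exp (4 * ∑ i ∈ Finset.range k, β (J i)) * 2 ^ k)
            * Real.exp (4 * β (J k)) := by gcongr
        _ = _ := by ring
  refine (hind k).trans ?_
  have hle : ∑ i ∈ Finset.range k, β (J i) ≤ ∑' j, β j := by
    rw [← Finset.sum_image (f := β) (g := J) (s := Finset.range k)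
      (fun x _ y _ hxy => hJmono.injective hxy)]
    exact hsum.sum_le_tsum _ (fun j _ => hβ0 j)
  gcongr

/-- Positive entropy in the summable case, real-variable form. -/
theorem entropy_pos_of_summable [Finite A] {X : Set (ℤ × ℤ → A)}
    (hX : ∀ v, ∀ x ∈ X, shift v x ∈ X) (h2 : X.Nontrivial) {b : ℕ → ℕ}
    (hb : ∀ n, gluing X n ≤ b n) (hbm : Monotone b)
    (hsum : Summable (fun j : ℕ => (b (2 ^ j) : ℝ) / 2 ^ j)) :
    ∃ h : ℝ, 0 < h ∧ HasEntropy X h := by
  obtain ⟨h, hh⟩ := exists_entropy hX h2.nonempty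
  refine ⟨h, ?_, hh⟩
  -- a starting scale
  have ht : Tendsto (fun j : ℕ => (b (2 ^ j) : ℝ) / 2 ^ j) atTop (𝓝 0) :=
    hsum.tendsto_atTop_zero
  obtain ⟨j₀, hj₀⟩ := (ht.eventually_lt_const (show (0 : ℝ) < 1 by norm_num)).exists_forall_of_atTop
  set n₀ := 2 ^ j₀ with hn₀
  have hn₀1 : 1 ≤ n₀ := Nat.one_le_two_pow
  have hbn : ∀ n, n₀ ≤ n → b n ≤ 2 * n := by
    intro n hn
    have hn1 : n ≠ 0 := by omega
    set l := Nat.log 2 n with hl
    have hl1 : 2 ^ l ≤ n := Nat.pow_log_le_self 2 hn1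
    have hl2 : n < 2 ^ (l + 1) := Nat.lt_pow_succ_log_self (by norm_num) n
    have hl3 : j₀ ≤ l := by
      by_contra hcon
      have : 2 ^ (l + 1) ≤ 2 ^ j₀ := Nat.pow_le_pow_right (by norm_num) (by omega)
      omega
    have h1 := hj₀ (l + 1) (by omega)
    rw [div_lt_one (by positivity)] at h1
    have h3 : b (2 ^ (l + 1)) < 2 ^ (l + 1) := by exact_mod_cast h1
    have h4 : b n ≤ b (2 ^ (l + 1)) := hbm hl2.le
    have h5 : 2 ^ (l + 1) = 2 * 2 ^ l := by ring
    omega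
  set C : ℝ := n₀ * Real.exp (4 * ∑' j : ℕ, (b (2 ^ j) : ℝ) / 2 ^ j) with hC
  have hCpos : 0 < C := by
    have : (0 : ℝ) < n₀ := by exact_mod_cast hn₀1
    positivity
  have hlow : ∀ k, Real.log 2 / C ^ 2 ≤
      Real.log (N X (S b n₀ k)) / ((S b n₀ k : ℕ) : ℝ) ^ 2 := by
    intro k
    have h1 := log_N_S_ge hX h2 hb hbm hn₀1 hbn k
    have h3 := S_le_of_summable hbm hn₀1 hsum k
    have hSpos : (0 : ℝ) < S b n₀ k := by
      exact_mod_cast lt_of_lt_of_le hn₀1 (le_S b n₀ k)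
    rw [div_le_div_iff₀ (by positivity) (by positivity)]
    have hlog2 : 0 < Real.log 2 := Real.log_pos (by norm_num)
    calc Real.log 2 * (S b n₀ k : ℝ) ^ 2 ≤ Real.log 2 * (C * 2 ^ k) ^ 2 := by
          gcongr
      _ = (4 ^ k * Real.log 2) * C ^ 2 := by
          rw [mul_pow, ← pow_mul, mul_comm k 2, pow_mul]; norm_num; ring
      _ ≤ Real.log (N X (S b n₀ k)) * C ^ 2 := by gcongr
  have hStend : Tendsto (S b n₀) atTop atTop := by
    apply tendsto_atTop_mono (f := fun k => k)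
    · intro k
      have h1 := S_ge b n₀ k
      have h3 : 1 * 2 ^ k ≤ n₀ * 2 ^ k := Nat.mul_le_mul_right _ hn₀1
      have h4 := k.lt_two_pow_self
      omega
    · exact tendsto_id
  have hlim := hh.comp hStend
  have hfin : Real.log 2 / C ^ 2 ≤ h := ge_of_tendsto' hlim hlow
  have hlog2 : 0 < Real.log 2 := Real.log_pos (by norm_num)
  exact lt_of_lt_of_le (by positivity) hfin

/-- **Positive entropy**: `∑ B(2^k)/2^k < ∞` implies positive entropy. -/
theorem entropy_pos [Finite A] {X : Set (ℤ × ℤ → A)}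
    (hX : ∀ v, ∀ x ∈ X, shift v x ∈ X) (h2 : X.Nontrivial)
    (hsum : ∑' k : ℕ, ((gluing X (2 ^ k) : ℕ∞) : ENNReal) / 2 ^ k ≠ ⊤) :
    ∃ h : ℝ, 0 < h ∧ HasEntropy X h := by
  have hfin2 : ∀ k, gluing X (2 ^ k) ≠ ⊤ := by
    intro k hk
    apply ENNReal.ne_top_of_tsum_ne_top hsum k
    rw [hk]
    simp only [ENat.toENNReal_top]
    exact ENNReal.top_div_of_ne_top (by simp)
  have hfin : ∀ n, gluing X n ≠ ⊤ := fun n =>
    ne_top_of_le_ne_top (hfin2 n) (gluing_mono hX n.lt_two_pow_self.le)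
  set b : ℕ → ℕ := fun n => (gluing X n).toNat with hb
  have hbeq : ∀ n, ((b n : ℕ) : ℕ∞) = gluing X n := fun n => ENat.natCast_toNat (hfin n)
  have hbm : Monotone b := by
    intro m n hmn
    have := gluing_mono hX hmn
    rw [← hbeq, ← hbeq] at this
    exact_mod_cast this
  apply entropy_pos_of_summable hX h2 (b := b) (fun n => (hbeq n).ge) hbm
  have h3 := ENNReal.summable_toReal hsum
  refine h3.congr fun k => ?_
  rw [ENNReal.toReal_div, ← hbeq]
  simp

/-! ### Entropy dimension -/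

lemma N_le [Finite A] (X : Set (ℤ × ℤ → A)) (n : ℕ) : N X n ≤ Nat.card A ^ (n ^ 2) := by
  have h1 : N X n ≤ Nat.card (Fin n × Fin n → A) :=
    Nat.card_le_card_of_injective (Subtype.val : lang X n → _) Subtype.val_injective
  rw [Nat.card_fun, Nat.card_prod, Nat.card_fin, ← pow_two] at h1
  exact h1

lemma S_le_pow {b : ℕ → ℕ} {n₀ : ℕ} {c : ℝ}
    (hc : ∀ n, n₀ ≤ n → (b n : ℝ) ≤ c * n) (hc0 : 0 ≤ c) (k : ℕ) :
    (S b n₀ k : ℝ) ≤ n₀ * (2 + 4 * c) ^ k := by
  induction k with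
  | zero => simp [S]
  | succ k ih =>
    have h1 := le_S b n₀ k
    have h2 := hc (4 * S b n₀ k) (by omega)
    simp only [S, pow_succ]
    push_cast at h2 ⊢
    calc 2 * (S b n₀ k : ℝ) + b (4 * S b n₀ k) ≤ 2 * S b n₀ k + c * (4 * S b n₀ k) := by linarith
      _ = (2 + 4 * c) * S b n₀ k := by ring
      _ ≤ (2 + 4 * c) * (n₀ * (2 + 4 * c) ^ k) := by gcongr
      _ = _ := by ring

/-- lower bound for `log log N` -/
lemma loglog_ge [Finite A] {X : Set (ℤ × ℤ → A)} (hX : ∀ v, ∀ x ∈ X, shift v x ∈ X)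
    (h2 : X.Nontrivial) {b : ℕ → ℕ} (hb : ∀ n, gluing X n ≤ b n) (hbm : Monotone b) {n₀ : ℕ}
    (hn₀ : 1 ≤ n₀) {c : ℝ} (hc0 : 0 < c) (hc1 : c ≤ 2) (hc : ∀ n, n₀ ≤ n → (b n : ℝ) ≤ c * n)
    {m : ℕ} (hm : n₀ ≤ m) :
    (Real.log m - Real.log n₀) * (Real.log 4 / Real.log (2 + 4 * c)) - Real.log 4
      + Real.log (Real.log 2) ≤ Real.log (Real.log (N X m)) := by
  have hex : ∃ k, m < S b n₀ (k + 1) := by
    refine ⟨m, ?_⟩
    have h1 := S_ge b n₀ (m + 1)
    have h3 : 1 * 2 ^ (m + 1) ≤ n₀ * 2 ^ (m + 1) := Nat.mul_le_mul_right _ hn₀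
    have h4 := (m + 1).lt_two_pow_self
    omega
  classical
  set k := Nat.find hex with hk
  have hk1 : m < S b n₀ (k + 1) := Nat.find_spec hex
  have hk2 : S b n₀ k ≤ m := by
    rcases Nat.eq_zero_or_pos k with h | h
    · rw [h]; exact hm
    · obtain ⟨l, hl⟩ := Nat.exists_eq_succ_of_ne_zero h.ne'
      have := Nat.find_min hex (m := l) (by omega)
      rw [hl]
      exact not_lt.1 this
  have hbn : ∀ n, n₀ ≤ n → b n ≤ 2 * n := by
    intro n hn
    have h1 := hc n hn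
    have h3 : (b n : ℝ) ≤ 2 * n := h1.trans (by gcongr)
    exact_mod_cast h3
  have h3 := log_N_S_ge hX h2 hb hbm hn₀ hbn k
  have hlog2 : 0 < Real.log 2 := Real.log_pos (by norm_num)
  have hlog4 : 0 < Real.log 4 := Real.log_pos (by norm_num)
  have hNmono : Real.log (N X (S b n₀ k)) ≤ Real.log (N X m) := by
    apply Real.log_le_log
    · have := two_le_N hX h2 (hn₀.trans (le_S b n₀ k))
      exact_mod_cast (by omega : 0 < N X (S b n₀ k))
    · exact_mod_cast N_mono X hk2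
  have h4 : (k : ℝ) * Real.log 4 + Real.log (Real.log 2) ≤ Real.log (Real.log (N X m)) := by
    calc (k : ℝ) * Real.log 4 + Real.log (Real.log 2) = Real.log (4 ^ k * Real.log 2) := by
          rw [Real.log_mul (by positivity) hlog2.ne', Real.log_pow]
      _ ≤ Real.log (Real.log (N X m)) := by
          apply Real.log_le_log (by positivity)
          exact h3.trans hNmono
  have h5 : (m : ℝ) ≤ n₀ * (2 + 4 * c) ^ (k + 1) := by
    have h6 := S_le_pow hc hc0.le (k + 1)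
    have h7 : (m : ℝ) ≤ S b n₀ (k + 1) := by exact_mod_cast hk1.le
    exact h7.trans h6
  have hn₀' : (0 : ℝ) < n₀ := by exact_mod_cast hn₀
  have hm' : (0 : ℝ) < m := by exact_mod_cast (by omega : 0 < m)
  have hlogc : 0 < Real.log (2 + 4 * c) := Real.log_pos (by linarith)
  have h8 : Real.log m ≤ Real.log n₀ + (k + 1) * Real.log (2 + 4 * c) := by
    calc Real.log m ≤ Real.log (n₀ * (2 + 4 * c) ^ (k + 1)) := Real.log_le_log hm' h5
      _ = Real.log n₀ + (k + 1) * Real.log (2 + 4 * c) := by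
          rw [Real.log_mul hn₀'.ne' (by positivity), Real.log_pow]; push_cast; ring
  have h9 : (Real.log m - Real.log n₀) * (Real.log 4 / Real.log (2 + 4 * c))
      ≤ (k + 1) * Real.log 4 := by
    rw [← mul_div_assoc, div_le_iff₀ hlogc]
    calc (Real.log m - Real.log n₀) * Real.log 4
        ≤ ((k + 1) * Real.log (2 + 4 * c)) * Real.log 4 := by
          apply mul_le_mul_of_nonneg_right _ hlog4.le
          linarith
      _ = (k + 1) * Real.log 4 * Real.log (2 + 4 * c) := by ring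
  linarith

/-- upper bound for `log log N` -/
lemma loglog_le [Finite A] {X : Set (ℤ × ℤ → A)} (hX : ∀ v, ∀ x ∈ X, shift v x ∈ X)
    (h2 : X.Nontrivial) {m : ℕ} (hm : 1 ≤ m) :
    Real.log (Real.log (N X m)) ≤ 2 * Real.log m + Real.log (Real.log (Nat.card A)) := by
  have hA : 2 ≤ Nat.card A := by
    have h1 := two_le_N hX h2 (le_refl 1)
    have h3 := N_le X 1
    simpa using h1.trans h3
  have hA' : 0 < Real.log (Nat.card A) := Real.log_pos (by exact_mod_cast hA)
  have hN2 := two_le_N hX h2 hm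
  have hN' : 0 < Real.log (N X m) := Real.log_pos (by exact_mod_cast hN2)
  have hm' : (0 : ℝ) < m := by exact_mod_cast hm
  have h1 : Real.log (N X m) ≤ (m : ℝ) ^ 2 * Real.log (Nat.card A) := by
    have h3 : (N X m : ℝ) ≤ (Nat.card A : ℝ) ^ (m ^ 2) := by exact_mod_cast N_le X m
    calc Real.log (N X m) ≤ Real.log ((Nat.card A : ℝ) ^ (m ^ 2)) := by
          apply Real.log_le_log _ h3
          exact_mod_cast (by omega : 0 < N X m)
      _ = _ := by rw [Real.log_pow]; push_cast; ring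
  calc Real.log (Real.log (N X m)) ≤ Real.log ((m : ℝ) ^ 2 * Real.log (Nat.card A)) :=
        Real.log_le_log hN' h1
    _ = _ := by
        rw [Real.log_mul (by positivity) hA'.ne', Real.log_pow]; push_cast; ring

/-- **Entropy dimension two**: sublinear block gluing forces entropy dimension `2`. -/
theorem entropyDimension_eq_two [Finite A] {X : Set (ℤ × ℤ → A)}
    (hX : ∀ v, ∀ x ∈ X, shift v x ∈ X) (h2 : X.Nontrivial)
    (hB : Tendsto (fun n : ℕ => ((gluing X n : ℕ∞) : ENNReal) / n) atTop (𝓝 0)) :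
    HasEntropyDimension X 2 := by
  -- finiteness
  have hev : ∀ᶠ n : ℕ in atTop, ((gluing X n : ℕ∞) : ENNReal) / n < 1 :=
    hB.eventually_lt_const (by norm_num)
  obtain ⟨n₁, hn₁⟩ := hev.exists_forall_of_atTop
  have hfin : ∀ n, gluing X n ≠ ⊤ := by
    intro n
    have h1 := hn₁ (n₁ + n) (by omega)
    have h3 : gluing X (n₁ + n) ≠ ⊤ := by
      intro h
      rw [h, ENat.toENNReal_top, ENNReal.top_div_of_ne_top (ENNReal.natCast_ne_top _)] at h1
      exact absurd h1 (by simp)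
    exact ne_top_of_le_ne_top h3 (gluing_mono hX (by omega))
  set b : ℕ → ℕ := fun n => (gluing X n).toNat with hb
  have hbeq : ∀ n, ((b n : ℕ) : ℕ∞) = gluing X n := fun n => ENat.natCast_toNat (hfin n)
  have hbm : Monotone b := by
    intro m n hmn
    have := gluing_mono hX hmn
    rw [← hbeq, ← hbeq] at this
    exact_mod_cast this
  have hsub : ∀ c : ℝ, 0 < c → ∃ n₀ : ℕ, 1 ≤ n₀ ∧ ∀ n, n₀ ≤ n → (b n : ℝ) ≤ c * n := by
    intro c hc
    have hev : ∀ᶠ n : ℕ in atTop, ((gluing X n : ℕ∞) : ENNReal) / n < ENNReal.ofReal c :=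
      hB.eventually_lt_const (ENNReal.ofReal_pos.2 hc)
    obtain ⟨n₀, hn₀⟩ := hev.exists_forall_of_atTop
    refine ⟨n₀ + 1, by omega, fun n hn => ?_⟩
    have h1 := hn₀ n (by omega)
    have hnpos : (0 : ℝ) < n := by exact_mod_cast (by omega : 0 < n)
    have hn0 : (n : ENNReal) ≠ 0 := by
      have : n ≠ 0 := by omega
      exact_mod_cast this
    rw [← hbeq, ENNReal.div_lt_iff (Or.inl hn0) (Or.inl (ENNReal.natCast_ne_top _))] at h1
    have h3 : ((b n : ℕ) : ENNReal) < ENNReal.ofReal (c * n) := by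
      rw [ENNReal.ofReal_mul hc.le, ENNReal.ofReal_natCast]
      simpa using h1
    have h4 : ENNReal.ofReal (b n : ℝ) < ENNReal.ofReal (c * n) := by
      rwa [ENNReal.ofReal_natCast]
    exact ((ENNReal.ofReal_lt_ofReal_iff (by positivity)).1 h4).le
  unfold HasEntropyDimension
  rw [Metric.tendsto_atTop]
  intro ε hε
  -- choose `c`
  have hcont : Tendsto (fun c : ℝ => Real.log 4 / Real.log (2 + 4 * c)) (𝓝[>] 0) (𝓝 2) := by
    have h1 : ContinuousAt (fun c : ℝ => Real.log 4 / Real.log (2 + 4 * c)) 0 := by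
      apply ContinuousAt.div continuousAt_const
      · apply ContinuousAt.log (by fun_prop) (by norm_num)
      · have : Real.log 2 ≠ 0 := (Real.log_pos (by norm_num)).ne'
        simpa using this
    have h3 : Real.log 4 / Real.log (2 + 4 * 0) = 2 := by
      have e : Real.log 4 = 2 * Real.log 2 := by
        rw [show (4 : ℝ) = 2 ^ 2 by norm_num, Real.log_pow]; norm_num
      have hlog2 : Real.log 2 ≠ 0 := (Real.log_pos (by norm_num)).ne'
      rw [e]; simp only [mul_zero, add_zero]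
      field_simp
    have h4 := h1.tendsto
    rw [h3] at h4
    exact h4.mono_left nhdsWithin_le_nhds
  have hev1 : ∀ᶠ c : ℝ in 𝓝[>] 0, 2 - ε / 2 < Real.log 4 / Real.log (2 + 4 * c) :=
    hcont.eventually_const_lt (by linarith)
  have hev2 : ∀ᶠ c : ℝ in 𝓝[>] 0, c ∈ Set.Ioo (0 : ℝ) 2 := Ioo_mem_nhdsGT (by norm_num)
  obtain ⟨c, hc1, hc2⟩ := (hev1.and hev2).exists
  obtain ⟨n₀, hn₀, hcn⟩ := hsub c hc2.1
  set κ := Real.log 4 / Real.log (2 + 4 * c) with hκ
  set K := Real.log n₀ * κ + Real.log 4 - Real.log (Real.log 2) with hK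
  set K' := Real.log (Real.log (Nat.card A)) with hK'
  have hlogt : Tendsto (fun m : ℕ => Real.log m) atTop atTop :=
    Real.tendsto_log_atTop.comp tendsto_natCast_atTop_atTop
  obtain ⟨m₁, hm₁⟩ := (hlogt.eventually_gt_atTop
    (max 0 (max (2 * |K| / ε) (|K'| / ε)))).exists_forall_of_atTop
  refine ⟨max n₀ m₁, fun m hm => ?_⟩
  have hmn₀ : n₀ ≤ m := (le_max_left _ _).trans hm
  have h3 := hm₁ m ((le_max_right _ _).trans hm)
  rw [max_lt_iff, max_lt_iff] at h3
  obtain ⟨hlogm, hKm, hK'm⟩ := h3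
  rw [div_lt_iff₀ hε] at hKm hK'm
  have hlow := loglog_ge hX h2 (fun n => (hbeq n).ge) hbm hn₀ hc2.1 hc2.2.le hcn hmn₀
  have hup := loglog_le hX h2 (hn₀.trans hmn₀)
  rw [Real.dist_eq, abs_lt]
  have habs1 := le_abs_self K
  have habs2 := le_abs_self K'
  change -ε < Real.log (Real.log (N X m)) / Real.log m - 2 ∧
    Real.log (Real.log (N X m)) / Real.log m - 2 < ε
  constructor
  · rw [lt_sub_iff_add_lt, lt_div_iff₀ hlogm]
    have h5 : (2 - ε / 2) * Real.log m < κ * Real.log m := by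
      apply mul_lt_mul_of_pos_right hc1 hlogm
    have h6 : (Real.log m - Real.log n₀) * κ - Real.log 4 + Real.log (Real.log 2)
        = κ * Real.log m - K := by rw [hK]; ring
    rw [h6] at hlow
    nlinarith
  · rw [sub_lt_iff_lt_add, div_lt_iff₀ hlogm]
    nlinarith

end Pool.Agent.Helper60.BlockGluing
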