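import Mathlib

set_option autoImplicit false

namespace Pool.Agent.Helper60.AlmostPeriodic

variable {H : Type*} [NormedAddCommGroup H] [NormedSpace ℂ H]

/-- for every `ε > 0` the forward orbit of `f` can be finitely coloured with colour classes of
diameter `< ε` (i.e. the orbit is totally bounded). -/
def AP (U : H →ₗ[ℂ] H) (f : H) : Prop :=
  ∀ ε : ℝ, 0 < ε → ∃ (ι : Type) (_ : Finite ι) (c : ℕ → ι),
    ∀ i j, c i = c j → ‖(U ^ i) f - (U ^ j) f‖ < ε

lemma norm_pow {U : H →ₗ[ℂ] H} (hU : ∀ x, ‖U x‖ = ‖x‖) (n : ℕ) (x : H) : ‖(U ^ n) x‖ = ‖x‖ := by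
  induction n with
  | zero => simp
  | succ n ih => rw [pow_succ', Module.End.mul_apply, hU, ih]

lemma AP_zero (U : H →ₗ[ℂ] H) : AP U 0 := by
  intro ε hε
  refine ⟨Unit, inferInstance, fun _ => (), fun i j _ => ?_⟩
  simpa using hε

lemma AP_add {U : H →ₗ[ℂ] H} {f g : H} (hf : AP U f) (hg : AP U g) : AP U (f + g) := by
  intro ε hε
  obtain ⟨ι, hι, c, hc⟩ := hf (ε / 2) (by positivity)
  obtain ⟨κ, hκ, d, hd⟩ := hg (ε / 2) (by positivity)
  refine ⟨ι × κ, inferInstance, fun n => (c n, d n), fun i j hij => ?_⟩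
  have h1 := hc i j (congrArg Prod.fst hij)
  have h2 := hd i j (congrArg Prod.snd hij)
  have : (U ^ i) (f + g) - (U ^ j) (f + g)
      = ((U ^ i) f - (U ^ j) f) + ((U ^ i) g - (U ^ j) g) := by
    simp only [map_add]; abel
  rw [this]
  calc _ ≤ ‖(U ^ i) f - (U ^ j) f‖ + ‖(U ^ i) g - (U ^ j) g‖ := norm_add_le _ _
    _ < ε := by linarith

lemma AP_closure {U : H →ₗ[ℂ] H} (hU : ∀ x, ‖U x‖ = ‖x‖) {f : H}
    (h : ∀ ε : ℝ, 0 < ε → ∃ g, AP U g ∧ ‖f - g‖ < ε) : AP U f := by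
  intro ε hε
  obtain ⟨g, hg, hfg⟩ := h (ε / 4) (by positivity)
  obtain ⟨ι, hι, c, hc⟩ := hg (ε / 4) (by positivity)
  refine ⟨ι, hι, c, fun i j hij => ?_⟩
  have h1 := hc i j hij
  have e : (U ^ i) f - (U ^ j) f
      = (U ^ i) (f - g) + ((U ^ i) g - (U ^ j) g) - (U ^ j) (f - g) := by
    simp only [map_sub]; abel
  rw [e]
  calc _ ≤ ‖(U ^ i) (f - g) + ((U ^ i) g - (U ^ j) g)‖ + ‖(U ^ j) (f - g)‖ := norm_sub_le _ _
    _ ≤ ‖(U ^ i) (f - g)‖ + ‖(U ^ i) g - (U ^ j) g‖ + ‖(U ^ j) (f - g)‖ := by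
        gcongr; exact norm_add_le _ _
    _ < ε := by
        rw [norm_pow hU, norm_pow hU]
        linarith

lemma AP_eigen {U : H →ₗ[ℂ] H} (hU : ∀ x, ‖U x‖ = ‖x‖) {f : H} {z : ℂ}
    (h : U f = z • f) : AP U f := by
  by_cases hf : f = 0
  · rw [hf]; exact AP_zero U
  have hfn : 0 < ‖f‖ := norm_pos_iff.2 hf
  have hz : ‖z‖ = 1 := by
    have := hU f
    rw [h, norm_smul] at this
    exact (mul_eq_right₀ hfn.ne').1 this
  have hpow : ∀ n, (U ^ n) f = z ^ n • f := by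
    intro n
    induction n with
    | zero => simp
    | succ n ih =>
      rw [pow_succ', Module.End.mul_apply, ih, map_smul, h, smul_smul, pow_succ]
  intro ε hε
  have hcomp : TotallyBounded (Metric.closedBall (0 : ℂ) 1) :=
    (isCompact_closedBall (0 : ℂ) 1).totallyBounded
  obtain ⟨t, ht, hcov⟩ := Metric.totallyBounded_iff.1 hcomp (ε / (2 * ‖f‖)) (by positivity)
  have hmem : ∀ n : ℕ, ∃ y : t, z ^ n ∈ Metric.ball (y : ℂ) (ε / (2 * ‖f‖)) := by
    intro n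
    have h1 : z ^ n ∈ Metric.closedBall (0 : ℂ) 1 := by
      rw [mem_closedBall_zero_iff, _root_.norm_pow, hz, one_pow]
    have h2 := hcov h1
    simp only [Set.mem_iUnion] at h2
    obtain ⟨y, hy, hy'⟩ := h2
    exact ⟨⟨y, hy⟩, hy'⟩
  choose c hc using hmem
  have : Finite t := ht
  refine ⟨t, inferInstance, c, fun i j hij => ?_⟩
  have h1 := hc i
  have h2 := hc j
  rw [← hij] at h2
  rw [hpow, hpow, ← sub_smul, norm_smul]
  rw [Metric.mem_ball, dist_eq_norm] at h1 h2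
  have h3 : ‖z ^ i - z ^ j‖ < ε / ‖f‖ := by
    have e : z ^ i - z ^ j = (z ^ i - c i) - (z ^ j - c i) := by ring
    rw [e]
    calc _ ≤ ‖z ^ i - c i‖ + ‖z ^ j - c i‖ := norm_sub_le _ _
      _ < ε / (2 * ‖f‖) + ε / (2 * ‖f‖) := by linarith
      _ = ε / ‖f‖ := by field_simp; ring
  calc ‖z ^ i - z ^ j‖ * ‖f‖ < ε / ‖f‖ * ‖f‖ := by gcongr
    _ = ε := by field_simp

/-- pure point spectrum implies that every orbit is totally bounded. -/
theorem AP_of_purePoint {U : H →ₗ[ℂ] H} (hU : ∀ x, ‖U x‖ = ‖x‖)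
    (h : (⨆ z : ℂ, Module.End.eigenspace U z).topologicalClosure = ⊤) (f : H) : AP U f := by
  have hf : f ∈ (⨆ z : ℂ, Module.End.eigenspace U z).topologicalClosure := by
    rw [h]; trivial
  have hdense : ∀ g ∈ (⨆ z : ℂ, Module.End.eigenspace U z), AP U g := by
    intro g hg
    refine Submodule.iSup_induction (fun z : ℂ => Module.End.eigenspace U z)
      (motive := fun g => AP U g) hg ?_ (AP_zero U) (fun x y hx hy => AP_add hx hy)
    intro z x hx
    exact AP_eigen hU (Module.End.mem_eigenspace_iff.1 hx)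
  apply AP_closure hU
  intro ε hε
  rw [← SetLike.mem_coe, Submodule.topologicalClosure_coe, Metric.mem_closure_iff] at hf
  obtain ⟨g, hg, hfg⟩ := hf ε hε
  exact ⟨g, hdense g hg, by rwa [← dist_eq_norm]⟩

/-- if some infinite family of iterates of `f` is uniformly separated, then the spectrum is not
pure point. -/
theorem not_purePoint_of_separated {U : H →ₗ[ℂ] H} (hU : ∀ x, ‖U x‖ = ‖x‖) (f : H)
    (s : ℕ → ℕ) (δ : ℝ) (hδ : 0 < δ)
    (hs : ∀ i j, i < j → δ ≤ ‖(U ^ (s j)) f - (U ^ (s i)) f‖) :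
    ¬ (⨆ z : ℂ, Module.End.eigenspace U z).topologicalClosure = ⊤ := by
  intro h
  obtain ⟨ι, hι, c, hc⟩ := AP_of_purePoint hU h f δ hδ
  obtain ⟨i, j, hij, hcij⟩ := Finite.exists_ne_map_eq_of_infinite (fun n => c (s n))
  rcases lt_or_gt_of_ne hij with h | h
  · exact absurd (hc _ _ hcij.symm) (not_lt.2 (hs i j h))
  · exact absurd (hc _ _ hcij) (not_lt.2 (hs j i h))

end Pool.Agent.Helper60.AlmostPeriodic
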