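import Mathlib

set_option autoImplicit false

open MeasureTheory Filter Topology BoundedContinuousFunction

namespace Pool.Agent.Helper60.KB

/-- **Krylov-Bogoliubov**: a continuous self-map of a non-empty compact (metrizable) space has an
invariant Borel probability measure. -/
theorem exists_invariant {E : Type*} [TopologicalSpace E] [CompactSpace E] [T2Space E]
    [MeasurableSpace E] [BorelSpace E] [HasOuterApproxClosed E] (x₀ : E) (T : E → E)
    (hT : Continuous T) :
    ∃ μ : Measure E, IsProbabilityMeasure μ ∧ MeasurePreserving T μ μ := by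
  classical
  let ν : ℕ → Measure E := fun N =>
    ((N + 1 : ℕ) : ENNReal)⁻¹ • ∑ k ∈ Finset.range (N + 1), Measure.dirac (T^[k] x₀)
  have hν : ∀ N, IsProbabilityMeasure (ν N) := by
    intro N
    constructor
    simp only [ν, Measure.smul_apply, Measure.coe_finsetSum, Finset.sum_apply, measure_univ,
      Finset.sum_const, Finset.card_range, smul_eq_mul, nsmul_eq_mul, mul_one]
    exact ENNReal.inv_mul_cancel (by simp) (by simp)
  let P : ℕ → ProbabilityMeasure E := fun N => ⟨ν N, hν N⟩
  let F : Ultrafilter ℕ := Filter.hyperfilter ℕ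
  obtain ⟨μ, -, hμ⟩ := isCompact_univ.ultrafilter_le_nhds (F.map P) (by simp)
  have hlim : Tendsto P F (𝓝 μ) := hμ
  rw [ProbabilityMeasure.tendsto_iff_forall_integral_tendsto] at hlim
  refine ⟨(μ : Measure E), inferInstance, hT.measurable, ?_⟩
  have hmap : IsProbabilityMeasure (Measure.map T (μ : Measure E)) :=
    Measure.isProbabilityMeasure_map hT.measurable.aemeasurable
  apply ext_of_forall_integral_eq_of_IsFiniteMeasure
  intro f
  rw [integral_map hT.measurable.aemeasurable f.continuous.aestronglyMeasurable]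
  have hint : ∀ (g : E →ᵇ ℝ) (N : ℕ), ∫ x, g x ∂(P N : Measure E)
      = ((N + 1 : ℕ) : ℝ)⁻¹ * ∑ k ∈ Finset.range (N + 1), g (T^[k] x₀) := by
    intro g N
    show ∫ x, g x ∂(ν N) = _
    simp only [ν]
    rw [integral_smul_measure, integral_finsetSum_measure]
    · simp only [integral_dirac, smul_eq_mul]
      rw [ENNReal.toReal_inv, ENNReal.toReal_natCast]
    · intro i _
      exact g.integrable _
  have h1 := hlim f
  have h2 := hlim (f.compContinuous ⟨T, hT⟩)
  have h3 : Tendsto (fun N => ∫ x, (f.compContinuous ⟨T, hT⟩) x ∂(P N : Measure E)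
      - ∫ x, f x ∂(P N : Measure E)) F (𝓝 0) := by
    have hb : Tendsto (fun N : ℕ => 2 * ‖f‖ * ((N + 1 : ℕ) : ℝ)⁻¹) F (𝓝 0) := by
      have : Tendsto (fun N : ℕ => 2 * ‖f‖ * ((N + 1 : ℕ) : ℝ)⁻¹) atTop (𝓝 (2 * ‖f‖ * 0)) :=
        ((tendsto_inv_atTop_nhds_zero_nat (𝕜 := ℝ)).comp (tendsto_add_atTop_nat 1)).const_mul _
      rw [mul_zero] at this
      exact this.mono_left (by rw [← Nat.cofinite_eq_atTop]; exact Filter.hyperfilter_le_cofinite)
    refine squeeze_zero_norm (fun N => ?_) hb
    rw [hint, hint, ← mul_sub, ← Finset.sum_sub_distrib]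
    have : ∑ k ∈ Finset.range (N + 1), ((f.compContinuous ⟨T, hT⟩) (T^[k] x₀) - f (T^[k] x₀))
        = f (T^[N + 1] x₀) - f x₀ := by
      have e : ∀ k, (f.compContinuous ⟨T, hT⟩) (T^[k] x₀) = f (T^[k + 1] x₀) := by
        intro k
        simp only [BoundedContinuousFunction.compContinuous_apply, ContinuousMap.coe_mk]
        rw [Function.iterate_succ_apply']
      simp only [e]
      rw [Finset.sum_range_sub (fun k => f (T^[k] x₀))]
      rfl
    rw [this, norm_mul, mul_comm]
    gcongr
    · calc ‖f (T^[N + 1] x₀) - f x₀‖ ≤ ‖f (T^[N + 1] x₀)‖ + ‖f x₀‖ := norm_sub_le _ _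
        _ ≤ ‖f‖ + ‖f‖ := add_le_add (f.norm_coe_le_norm _) (f.norm_coe_le_norm _)
        _ = 2 * ‖f‖ := by ring
    · rw [norm_inv, Real.norm_natCast]
  have h4 := tendsto_nhds_unique (h2.sub h1) h3
  have h5 : ∫ x, (f.compContinuous ⟨T, hT⟩) x ∂(μ : Measure E) = ∫ x, f x ∂(μ : Measure E) :=
    sub_eq_zero.1 h4
  simpa using h5

end Pool.Agent.Helper60.KB
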