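import Mathlib

/-!
# Random substitutions, Pisot property, minimal subsystems and pure point spectrum

The notions used in the disproof of the conjecture that minimal subsystems of compatible
irreducible Pisot random substitution subshifts are pure point systems.
-/

set_option autoImplicit false

open MeasureTheory

namespace Pool.Agent.Helper60.RandomPisot

/-! ## Definitions -/

/-- A random substitution on the alphabet `Fin d`: every letter `a` has a finite non-empty set
`realisations a` of realisations, which are non-empty words. -/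
structure RandomSubstitution (d : ℕ) where
  /-- the realisations of a letter -/
  realisations : Fin d → Finset (List (Fin d))
  realisations_nonempty : ∀ a, (realisations a).Nonempty
  ne_nil : ∀ a, ∀ u ∈ realisations a, u ≠ []

namespace RandomSubstitution

variable {d : ℕ} (θ : RandomSubstitution d)

/-- The image of a set `S` of words: all words `u₁ u₂ ⋯ uₙ` where `a₁ a₂ ⋯ aₙ ∈ S` and
`uᵢ` is a realisation of `aᵢ`. -/
def image (S : Set (List (Fin d))) : Set (List (Fin d)) :=
  {v | ∃ w ∈ S, ∃ us : List (List (Fin d)),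
    List.Forall₂ (fun a u => u ∈ θ.realisations a) w us ∧ v = us.flatten}

/-- `θ.power n a` is the set `θⁿ(a)` of words. -/
def power (n : ℕ) (a : Fin d) : Set (List (Fin d)) := (θ.image)^[n] {[a]}

/-- A word is legal if it is a subword of some element of `θⁿ(a)`, for some `n ≥ 1` and some
letter `a`. -/
def Legal (w : List (Fin d)) : Prop := ∃ n ≥ 1, ∃ a, ∃ u ∈ θ.power n a, w <:+: u

/-- Compatibility: all realisations of a letter have the same letter counts. -/
def Compatible : Prop :=
  ∀ a, ∀ u ∈ θ.realisations a, ∀ v ∈ θ.realisations a, ∀ b, u.count b = v.count b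

/-- `M` is the substitution matrix of the (compatible) random substitution `θ`:
`M a b` is the number of occurrences of `a` in any realisation of `b`. -/
def IsSubstitutionMatrix (M : Matrix (Fin d) (Fin d) ℕ) : Prop :=
  ∀ a b, ∀ u ∈ θ.realisations b, M a b = u.count a

end RandomSubstitution

/-- A non-negative integer matrix is primitive if one of its powers has only positive entries. -/
def PrimitiveMatrix {d : ℕ} (M : Matrix (Fin d) (Fin d) ℕ) : Prop :=
  ∃ k ≥ 1, ∀ a b, 0 < (M ^ k) a b

/-- `β` is the Perron-Frobenius eigenvalue of `M`: an eigenvalue with a positive eigenvector which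
is strictly larger than the modulus of every other complex eigenvalue. -/
def IsPerronFrobeniusEigenvalue {d : ℕ} (M : Matrix (Fin d) (Fin d) ℕ) (β : ℝ) : Prop :=
  (∃ v : Fin d → ℝ, (∀ a, 0 < v a) ∧ (M.map (Nat.cast : ℕ → ℝ)).mulVec v = β • v) ∧
  ∀ z : ℂ, (M.map (Nat.cast : ℕ → ℂ)).charpoly.IsRoot z → z ≠ (β : ℂ) → ‖z‖ < β

/-- A Pisot number: a real algebraic integer `β > 1` all of whose other conjugates (roots of its
minimal polynomial over `ℚ`) have modulus `< 1`. -/
def IsPisotNumber (β : ℝ) : Prop :=
  1 < β ∧ IsIntegral ℤ β ∧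
    ∀ z : ℂ, Polynomial.aeval z (minpoly ℚ β) = 0 → z ≠ (β : ℂ) → ‖z‖ < 1

/-- `θ` is irreducible Pisot: its substitution matrix is primitive, has irreducible
characteristic polynomial over `ℚ`, and its Perron-Frobenius eigenvalue is a Pisot number. -/
def RandomSubstitution.IrreduciblePisot {d : ℕ} (θ : RandomSubstitution d) : Prop :=
  ∃ M : Matrix (Fin d) (Fin d) ℕ, θ.IsSubstitutionMatrix M ∧ PrimitiveMatrix M ∧
    Irreducible (M.map (Nat.cast : ℕ → ℚ)).charpoly ∧
    ∃ β : ℝ, IsPerronFrobeniusEigenvalue M β ∧ IsPisotNumber β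

/-- The word `x_i x_{i+1} ⋯ x_{i+n-1}` of a bi-infinite sequence. -/
def window {d : ℕ} (x : ℤ → Fin d) (i : ℤ) (n : ℕ) : List (Fin d) :=
  List.ofFn fun k : Fin n => x (i + (k : ℕ))

/-- The random substitution subshift `X_θ`: all bi-infinite sequences all of whose finite subwords
are legal. -/
def RandomSubstitution.subshift {d : ℕ} (θ : RandomSubstitution d) : Set (ℤ → Fin d) :=
  {x | ∀ i n, θ.Legal (window x i n)}

/-- The left shift. -/
def shift {d : ℕ} (x : ℤ → Fin d) : ℤ → Fin d := fun i => x (i + 1)

/-- `Y` is a minimal subsystem of `X`: a non-empty closed shift-invariant subset that contains no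
proper non-empty closed shift-invariant subset. -/
def IsMinimalSubsystem {d : ℕ} (X Y : Set (ℤ → Fin d)) : Prop :=
  Y ⊆ X ∧ Y.Nonempty ∧ IsClosed Y ∧ shift '' Y = Y ∧
    ∀ Z ⊆ Y, Z.Nonempty → IsClosed Z → shift '' Z = Z → Z = Y

/-- `f` is an eigenfunction of the Koopman operator `f ↦ f ∘ S` on the complex space `L²(μ)`:
`f` is square integrable and `f ∘ S = z f` almost everywhere, for some complex number `z`. -/
def IsEigenfunction {d : ℕ} (μ : Measure (ℤ → Fin d)) (f : (ℤ → Fin d) → ℂ) : Prop :=
  MemLp f 2 μ ∧ ∃ z : ℂ, ∀ᵐ x ∂μ, f (shift x) = z * f x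

/-- The Koopman operator on `L²(μ)` has pure point spectrum: its eigenfunctions span a dense
subspace, i.e. every square integrable `f` can be approximated in the `L²` norm by finite sums of
eigenfunctions. -/
def HasPurePointSpectrum {d : ℕ} (μ : Measure (ℤ → Fin d)) : Prop :=
  ∀ f : (ℤ → Fin d) → ℂ, MemLp f 2 μ → ∀ ε > (0 : ENNReal), ∃ (n : ℕ) (g : Fin n → (ℤ → Fin d) → ℂ),
    (∀ i, IsEigenfunction μ (g i)) ∧ eLpNorm (fun x => f x - ∑ i, g i x) 2 μ < ε

/-- `(Y, S)` is a pure point system: for every shift-invariant Borel probability measure `μ`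
carried by `Y`, the Koopman operator has pure point spectrum. -/
def IsPurePointSystem {d : ℕ} (Y : Set (ℤ → Fin d)) : Prop :=
  ∀ μ : Measure (ℤ → Fin d), IsProbabilityMeasure μ →
    MeasurePreserving (shift (d := d)) μ μ → μ Yᶜ = 0 → HasPurePointSpectrum μ

end Pool.Agent.Helper60.RandomPisot
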