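import Mathlib

set_option autoImplicit false

namespace Pool.Agent.Helper60.Words

/-- level words: `W n false` and `W n true` are two realisations of `θ^n(a)` of equal length. -/
def W : ℕ → Bool → List (Fin 2)
  | 0, _ => [0]
  | 1, false => [0, 0, 0, 1]
  | 1, true => [1, 0, 0, 0]
  | (n + 2), c => W (n + 1) c ++ W (n + 1) c ++ W (n + 1) (!c) ++ W n c

/-- the lengths of the level words -/
def L : ℕ → ℕ
  | 0 => 1
  | 1 => 4
  | (n + 2) => 3 * L (n + 1) + L n

lemma length_W : ∀ (n : ℕ) (c : Bool), (W n c).length = L n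
  | 0, _ => rfl
  | 1, false => rfl
  | 1, true => rfl
  | (n + 2), c => by
      simp only [W, L, List.length_append, length_W (n + 1), length_W n]
      ring

lemma L_pos : ∀ n, 0 < L n
  | 0 => by simp [L]
  | 1 => by simp [L]
  | (n + 2) => by
      have := L_pos n
      simp only [L]; omega

lemma L_lt_succ (n : ℕ) : L n < L (n + 1) := by
  cases n with
  | zero => simp [L]
  | succ n =>
    have h1 := L_pos n
    have h2 := L_pos (n + 1)
    simp only [L]
    omega

lemma L_strictMono : StrictMono L := strictMono_nat_of_lt_succ L_lt_succ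

lemma L_succ_le (n : ℕ) : L (n + 1) ≤ 4 * L n := by
  cases n with
  | zero => simp [L]
  | succ n =>
    have h1 := L_lt_succ n
    simp only [L]
    omega

lemma L_mono {m n : ℕ} (h : m ≤ n) : L m ≤ L n := L_strictMono.monotone h

/-! ### Occurrences -/

lemma infix_append_cases {α : Type*} {u x y : List α} (h : u <:+: x ++ y) :
    u <:+: x ∨ u <:+: y ∨ ∃ s p, u = s ++ p ∧ s <:+ x ∧ p <+: y := by
  obtain ⟨a, b, hab⟩ := h
  -- a ++ u ++ b = x ++ y
  rw [List.append_assoc] at hab
  rcases List.append_eq_append_iff.1 hab with ⟨a', hx, hy⟩ | ⟨c', hx, hy⟩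
  · -- x = a ++ a', u ++ b = a' ++ y
    rcases List.append_eq_append_iff.1 hy with ⟨a'', h1, h2⟩ | ⟨c'', h1, h2⟩
    · -- a' = u ++ a''
      left
      exact ⟨a, a'', by rw [hx, h1]; simp⟩
    · right; right
      exact ⟨a', c'', h1, ⟨a, hx.symm⟩, ⟨b, h2.symm⟩⟩
  · right; left
    exact ⟨c', b, by rw [hy]; simp⟩

lemma prefix_append_cases {α : Type*} {u x y : List α} (h : u <+: x ++ y) :
    u <+: x ∨ ∃ p, u = x ++ p ∧ p <+: y := by
  obtain ⟨b, hb⟩ := h
  rcases List.append_eq_append_iff.1 hb with ⟨a', h1, h2⟩ | ⟨c', h1, h2⟩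
  · left; exact ⟨a', h1.symm⟩
  · right; exact ⟨c', h1, ⟨b, h2.symm⟩⟩

lemma suffix_append_cases {α : Type*} {u x y : List α} (h : u <:+ x ++ y) :
    u <:+ y ∨ ∃ s, u = s ++ y ∧ s <:+ x := by
  obtain ⟨b, hb⟩ := h
  rcases List.append_eq_append_iff.1 hb with ⟨a', h1, h2⟩ | ⟨c', h1, h2⟩
  · right; exact ⟨a', h2, ⟨b, h1.symm⟩⟩
  · left; exact ⟨c', h2.symm⟩

/-- `u` contains a level-`N` word -/
def Good (N : ℕ) (u : List (Fin 2)) : Prop := ∃ c, W N c <:+: u

lemma Good.mono {N : ℕ} {u v : List (Fin 2)} (h : Good N u) (huv : u <:+: v) : Good N v := by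
  obtain ⟨c, hc⟩ := h
  exact ⟨c, hc.trans huv⟩

/-- All long subwords, prefixes, suffixes contain a level-`N` word. -/
structure Nice (N K : ℕ) (x : List (Fin 2)) : Prop where
  inf : ∀ u, u <:+: x → 2 * K ≤ u.length → Good N u
  pre : ∀ u, u <+: x → K ≤ u.length → Good N u
  suf : ∀ u, u <:+ x → K ≤ u.length → Good N u
  self : Good N x

lemma Nice.append {N K : ℕ} {x y : List (Fin 2)} (hx : Nice N K x) (hy : Nice N K y) :
    Nice N K (x ++ y) := by
  refine ⟨?_, ?_, ?_, ?_⟩
  · intro u hu hlen
    rcases infix_append_cases hu with h | h | ⟨s, p, rfl, hs, hp⟩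
    · exact hx.inf u h hlen
    · exact hy.inf u h hlen
    · rw [List.length_append] at hlen
      rcases le_or_gt K s.length with h | h
      · exact (hx.suf s hs h).mono (List.infix_append' [] s p)
      · exact (hy.pre p hp (by omega)).mono (List.suffix_append s p).isInfix
  · intro u hu hlen
    rcases prefix_append_cases hu with h | ⟨p, rfl, hp⟩
    · exact hx.pre u h hlen
    · exact hx.self.mono (List.prefix_append x p).isInfix
  · intro u hu hlen
    rcases suffix_append_cases hu with h | ⟨s, rfl, hs⟩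
    · exact hy.suf u h hlen
    · exact hy.self.mono (List.suffix_append s y).isInfix
  · exact hx.self.mono (List.prefix_append x y).isInfix

lemma good_self (N : ℕ) (c : Bool) : Good N (W N c) := ⟨c, List.infix_rfl⟩

lemma W_infix_succ (n : ℕ) (c : Bool) : W (n + 1) c <:+: W (n + 2) c := by
  rw [W]
  simp only [List.append_assoc]
  exact (List.prefix_append _ _).isInfix

lemma W_infix_succ' (n : ℕ) (c : Bool) : W (n + 1) (!c) <:+: W (n + 2) c := by
  rw [W]
  exact ⟨W (n + 1) c ++ W (n + 1) c, W n c, by simp⟩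

lemma W_infix_any (n : ℕ) (c c' : Bool) : W (n + 1) c' <:+: W (n + 2) c := by
  rcases Bool.eq_or_eq_not c' c with h | h
  · rw [h]; exact W_infix_succ n c
  · rw [h]; exact W_infix_succ' n c

lemma W_infix_any' (n : ℕ) (c c' : Bool) : W n c' <:+: W (n + 1) c := by
  cases n with
  | zero =>
    have : W 0 c' = [0] := rfl
    rw [this]
    cases c
    · exact ⟨[], [0, 0, 1], rfl⟩
    · exact ⟨[1], [0, 0], rfl⟩
  | succ n => exact W_infix_any n c c'

lemma nice_W (N : ℕ) : ∀ (j : ℕ) (c : Bool), Nice N (L (N + 1)) (W (N + j) c)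
  | 0, c => by
    have hl := length_W N c
    have h1 := L_lt_succ N
    refine ⟨?_, ?_, ?_, good_self N c⟩
    · intro u hu hlen
      have := hu.length_le
      simp only [Nat.add_zero] at this
      omega
    · intro u hu hlen
      have := hu.length_le
      simp only [Nat.add_zero] at this
      omega
    · intro u hu hlen
      have := hu.length_le
      simp only [Nat.add_zero] at this
      omega
  | 1, c => by
    have hl := length_W (N + 1) c
    have h1 := L_pos (N + 1)
    have hg : Good N (W (N + 1) c) := ⟨c, W_infix_any' N c c⟩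
    refine ⟨?_, ?_, ?_, hg⟩
    · intro u hu hlen
      have := hu.length_le
      omega
    · intro u hu hlen
      have := hu.eq_of_length_le (by omega)
      rw [this]; exact hg
    · intro u hu hlen
      have := hu.eq_of_length_le (by omega)
      rw [this]; exact hg
  | (j + 2), c => by
    have h1 := nice_W N (j + 1)
    have h0 := nice_W N j
    have : W (N + (j + 2)) c
        = W (N + (j + 1)) c ++ W (N + (j + 1)) c ++ W (N + (j + 1)) (!c) ++ W (N + j) c := by
      show W ((N + j) + 2) c = _
      rw [W]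
      rfl
    rw [this]
    exact (((h1 c).append (h1 c)).append (h1 (!c))).append (h0 c)

/-- every subword of length `≥ 2 L (N+1)` of a level word contains a level-`N` word. -/
lemma good_of_infix_W {N M : ℕ} {c : Bool} {u : List (Fin 2)} (hu : u <:+: W M c)
    (hlen : 2 * L (N + 1) ≤ u.length) : Good N u := by
  rcases le_or_gt N M with h | h
  · obtain ⟨j, rfl⟩ := Nat.exists_eq_add_of_le h
    exact (nice_W N j c).inf u hu hlen
  · exfalso
    have h1 := hu.length_le
    rw [length_W] at h1
    have h2 := L_mono h.le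
    have h3 := L_lt_succ N
    omega

/-- every subword of length `≥ 2 L (N+2)` of a level word contains both level-`N` words. -/
lemma infix_of_infix_W {N M : ℕ} {c : Bool} {u : List (Fin 2)} (hu : u <:+: W M c)
    (hlen : 2 * L (N + 2) ≤ u.length) (c' : Bool) : W N c' <:+: u := by
  obtain ⟨c'', h⟩ := good_of_infix_W (N := N + 1) hu hlen
  exact (W_infix_any' N c'' c').trans h

/-! ### Mismatch counts -/

/-- number of positions where two words of the same length differ -/
def hd (u v : List (Fin 2)) : ℕ :=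
  ∑ k ∈ Finset.range u.length, if u[k]? ≠ v[k]? then 1 else 0

/-- number of positions `k` of `w` with `w_{k+i} ≠ w_{k+j}` -/
def mism (i j : ℕ) (w : List (Fin 2)) : ℕ :=
  ∑ k ∈ Finset.range w.length,
    if k + i < w.length ∧ k + j < w.length ∧ w[k + i]? ≠ w[k + j]? then 1 else 0

lemma hd_append {u₁ u₂ v₁ v₂ : List (Fin 2)} (h : u₁.length = v₁.length) :
    hd (u₁ ++ u₂) (v₁ ++ v₂) = hd u₁ v₁ + hd u₂ v₂ := by
  unfold hd
  rw [List.length_append, Finset.sum_range_add]
  congr 1
  · apply Finset.sum_congr rfl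
    intro k hk
    rw [Finset.mem_range] at hk
    rw [List.getElem?_append_left hk, List.getElem?_append_left (h ▸ hk)]
  · apply Finset.sum_congr rfl
    intro k hk
    rw [List.getElem?_append_right (by omega), List.getElem?_append_right (by omega), h]
    simp

lemma mism_append (i j : ℕ) (u v : List (Fin 2)) :
    mism i j u + mism i j v ≤ mism i j (u ++ v) := by
  unfold mism
  rw [List.length_append, Finset.sum_range_add]
  apply add_le_add
  · apply Finset.sum_le_sum
    intro k hk
    by_cases h : k + i < u.length ∧ k + j < u.length ∧ u[k + i]? ≠ u[k + j]?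
    · rw [if_pos h, if_pos]
      refine ⟨by omega, by omega, ?_⟩
      rw [List.getElem?_append_left h.1, List.getElem?_append_left h.2.1]
      exact h.2.2
    · rw [if_neg h]; exact Nat.zero_le _
  · apply Finset.sum_le_sum
    intro k hk
    by_cases h : k + i < v.length ∧ k + j < v.length ∧ v[k + i]? ≠ v[k + j]?
    · rw [if_pos h, if_pos]
      refine ⟨by omega, by omega, ?_⟩
      rw [List.getElem?_append_right (by omega), List.getElem?_append_right (by omega)]
      have e1 : u.length + k + i - u.length = k + i := by omega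
      have e2 : u.length + k + j - u.length = k + j := by omega
      rw [e1, e2]
      exact h.2.2
    · rw [if_neg h]; exact Nat.zero_le _

lemma mism_mono_infix (i j : ℕ) {u w : List (Fin 2)} (h : u <:+: w) :
    mism i j u ≤ mism i j w := by
  obtain ⟨a, b, rfl⟩ := h
  have h1 := mism_append i j (a ++ u) b
  have h2 := mism_append i j a u
  omega

lemma hd_le_mism {u v : List (Fin 2)} (h : u.length = v.length) :
    hd u v ≤ mism 0 u.length (u ++ v) := by
  unfold hd mism
  rw [List.length_append, Finset.sum_range_add]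
  refine le_trans ?_ (Nat.le_add_right _ _)
  apply Finset.sum_le_sum
  intro k hk
  rw [Finset.mem_range] at hk
  by_cases h' : u[k]? ≠ v[k]?
  · rw [if_pos h', if_pos]
    refine ⟨by omega, by omega, ?_⟩
    rw [List.getElem?_append_left (by omega), List.getElem?_append_right (by omega)]
    have e2 : k + u.length - u.length = k := by omega
    rw [e2, Nat.add_zero]
    exact h'
  · rw [if_neg h']; exact Nat.zero_le _

lemma mism_double (u : List (Fin 2)) (j : ℕ) :
    mism 0 j u ≤ mism u.length j (u ++ u) := by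
  unfold mism
  rw [List.length_append, Finset.sum_range_add]
  refine le_trans ?_ (Nat.le_add_right _ _)
  apply Finset.sum_le_sum
  intro k hk
  rw [Finset.mem_range] at hk
  by_cases h' : k + 0 < u.length ∧ k + j < u.length ∧ u[k + 0]? ≠ u[k + j]?
  · rw [if_pos h', if_pos]
    refine ⟨by omega, by omega, ?_⟩
    rw [List.getElem?_append_right (by omega), List.getElem?_append_left (by omega)]
    have e2 : k + u.length - u.length = k + 0 := by omega
    rw [e2]
    exact h'.2.2
  · rw [if_neg h']; exact Nat.zero_le _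

/-- The two words of level `n + 1` differ in at least a third of their positions. -/
lemma L_le_hd : ∀ (n : ℕ) (c : Bool), L (n + 1) ≤ 3 * hd (W (n + 1) c) (W (n + 1) (!c))
  | 0, c => by
    cases c <;> decide
  | 1, c => by
    cases c <;> decide
  | (n + 2), c => by
    have h1 := L_le_hd (n + 1) c
    have h1' := L_le_hd (n + 1) (!c)
    have h0 := L_le_hd n c
    have e : ∀ c, W (n + 2 + 1) c
        = W (n + 1 + 1) c ++ W (n + 1 + 1) c ++ W (n + 1 + 1) (!c) ++ W (n + 1) c := by
      intro c; rfl
    have eL : L (n + 2 + 1) = 3 * L (n + 1 + 1) + L (n + 1) := rfl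
    rw [e c, e (!c), eL]
    rw [hd_append (by simp [length_W]), hd_append (by simp [length_W]),
      hd_append (by simp [length_W])]
    omega

lemma third_le_mism (m : ℕ) (c : Bool) :
    hd (W (m + 1) c) (W (m + 1) (!c)) ≤ mism 0 (L (m + 1)) (W (m + 2) c) := by
  have h1 := hd_le_mism (u := W (m + 1) c) (v := W (m + 1) (!c)) (by simp [length_W])
  rw [length_W] at h1
  refine h1.trans (mism_mono_infix _ _ ?_)
  rw [W]
  exact ⟨W (m + 1) c, W m c, by simp⟩

/-- for `M > m ≥ 1`, the word `W M c` differs from its shift by `L m` in at least a fixed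
proportion of places. -/
lemma L_le_mism (m : ℕ) : ∀ (j : ℕ) (c : Bool),
    L (m + 2 + j) ≤ 13 * mism 0 (L (m + 1)) (W (m + 2 + j) c)
  | 0, c => by
    have h1 := L_le_hd m c
    have h2 := third_le_mism m c
    have h3 : L (m + 2) ≤ 4 * L (m + 1) := L_succ_le (m + 1)
    simp only [Nat.add_zero]
    omega
  | 1, c => by
    have h1 := L_le_hd m c
    have h1' := L_le_hd m (!c)
    have h2 := third_le_mism m c
    have h2' := third_le_mism m (!c)
    have h3 : L (m + 2) ≤ 4 * L (m + 1) := L_succ_le (m + 1)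
    have e : W (m + 2 + 1) c
        = W (m + 2) c ++ W (m + 2) c ++ W (m + 2) (!c) ++ W (m + 1) c := rfl
    have eL : L (m + 2 + 1) = 3 * L (m + 2) + L (m + 1) := rfl
    have eh : ∀ c, L (m + 1) ≤ 3 * hd (W (m + 1) c) (W (m + 1) (!c)) := L_le_hd m
    have := eh c
    have := eh (!c)
    rw [e, eL]
    have a1 := mism_append 0 (L (m + 1)) (W (m + 2) c ++ W (m + 2) c ++ W (m + 2) (!c)) (W (m + 1) c)
    have a2 := mism_append 0 (L (m + 1)) (W (m + 2) c ++ W (m + 2) c) (W (m + 2) (!c))
    have a3 := mism_append 0 (L (m + 1)) (W (m + 2) c) (W (m + 2) c)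
    omega
  | (j + 2), c => by
    have h1 := L_le_mism m (j + 1) c
    have h1' := L_le_mism m (j + 1) (!c)
    have h0 := L_le_mism m j c
    have e : W (m + 2 + (j + 2)) c
        = W (m + 2 + (j + 1)) c ++ W (m + 2 + (j + 1)) c ++ W (m + 2 + (j + 1)) (!c)
          ++ W (m + 2 + j) c := rfl
    have eL : L (m + 2 + (j + 2)) = 3 * L (m + 2 + (j + 1)) + L (m + 2 + j) := rfl
    rw [e, eL]
    have a1 := mism_append 0 (L (m + 1)) (W (m + 2 + (j + 1)) c ++ W (m + 2 + (j + 1)) c
      ++ W (m + 2 + (j + 1)) (!c)) (W (m + 2 + j) c)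
    have a2 := mism_append 0 (L (m + 1)) (W (m + 2 + (j + 1)) c ++ W (m + 2 + (j + 1)) c)
      (W (m + 2 + (j + 1)) (!c))
    have a3 := mism_append 0 (L (m + 1)) (W (m + 2 + (j + 1)) c) (W (m + 2 + (j + 1)) c)
    omega

/-- for `n > m ≥ 1`: many mismatches between the shifts by `L n` and by `L m` in `W (n+1) c`. -/
lemma L_le_mism_pair {m n : ℕ} (hm : 1 ≤ m) (hmn : m < n) (c : Bool) :
    L n ≤ 13 * mism (L n) (L m) (W (n + 1) c) := by
  obtain ⟨m, rfl⟩ := Nat.exists_eq_add_of_le' hm
  obtain ⟨j, rfl⟩ := Nat.exists_eq_add_of_lt hmn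
  have h1 := L_le_mism m j c
  have h2 := mism_double (W (m + 2 + j) c) (L (m + 1))
  rw [length_W] at h2
  have e0 : m + 1 + j + 1 = m + 2 + j := by ring
  rw [e0]
  have h3 : mism (L (m + 2 + j)) (L (m + 1)) (W (m + 2 + j) c ++ W (m + 2 + j) c)
      ≤ mism (L (m + 2 + j)) (L (m + 1)) (W (m + 2 + j + 1) c) := by
    apply mism_mono_infix
    have e : m + 2 + j + 1 = (m + 1 + j) + 2 := by ring
    rw [e, W]
    have e' : m + 2 + j = m + 1 + j + 1 := by ring
    rw [e', List.append_assoc (W (m + 1 + j + 1) c ++ W (m + 1 + j + 1) c)]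
    exact (List.prefix_append _ _).isInfix
  omega

end Pool.Agent.Helper60.Words
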