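import Mathlib
import Pool.Agent.Helper60.Words
import Pool.Agent.Helper60.AlmostPeriodic
import Pool.Agent.Helper60.KB
import Pool.Agent.Helper60.RandomPisotDefs

/-!
# A minimal subsystem of a random Pisot subshift that is not a pure point system

The random substitution is the random noble means substitution with parameter three,
`a ↦ {baaa, abaa, aaba, aaab}`, `b ↦ {a}`, with substitution matrix `[[3, 1], [1, 0]]` and
Perron-Frobenius eigenvalue `(3 + √13) / 2`.
-/

set_option autoImplicit false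

open MeasureTheory

namespace Pool.Agent.Helper60.RandomPisot

/-! ## The example -/

open Pool.Agent.Helper60.Words Pool.Agent.Helper60.AlmostPeriodic

/-- The random noble means substitution with parameter three: letter `0` (playing the role of `a`)
has the realisations `baaa, abaa, aaba, aaab`, letter `1` (the role of `b`) has the only
realisation `a`. -/
def noble : RandomSubstitution 2 where
  realisations := ![{[1, 0, 0, 0], [0, 1, 0, 0], [0, 0, 1, 0], [0, 0, 0, 1]}, {[0]}]
  realisations_nonempty := by decide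
  ne_nil := by decide

lemma noble_compatible : noble.Compatible := by
  unfold RandomSubstitution.Compatible
  decide

/-- the substitution matrix of `noble` -/
def M₀ : Matrix (Fin 2) (Fin 2) ℕ := !![3, 1; 1, 0]

lemma noble_matrix : noble.IsSubstitutionMatrix M₀ := by
  unfold RandomSubstitution.IsSubstitutionMatrix
  decide

lemma M₀_primitive : PrimitiveMatrix M₀ := by
  refine ⟨2, by norm_num, ?_⟩
  rw [M₀, pow_two]
  intro a b
  fin_cases a <;> fin_cases b <;> simp [Matrix.mul_apply, Fin.sum_univ_two]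

lemma charpoly_eq {R : Type*} [CommRing R] [Nontrivial R] :
    (M₀.map (Nat.cast : ℕ → R)).charpoly
      = Polynomial.X ^ 2 - Polynomial.C 3 * Polynomial.X - Polynomial.C 1 := by
  rw [Matrix.charpoly_fin_two, Matrix.det_fin_two, Matrix.trace_fin_two]
  simp [M₀, sub_eq_add_neg]

/-- The Perron-Frobenius eigenvalue. -/
noncomputable def β₀ : ℝ := (3 + √13) / 2

lemma β₀_sq : β₀ ^ 2 = 3 * β₀ + 1 := by
  have h : √13 ^ 2 = (13 : ℝ) := Real.sq_sqrt (by norm_num)
  unfold β₀
  nlinarith [h]

lemma β₀_gt : 3.3 < β₀ := by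
  have h : (3.6 : ℝ) < √13 := by
    rw [Real.lt_sqrt (by norm_num)]; norm_num
  unfold β₀; linarith

lemma β₀_lt : β₀ < 3.31 := by
  have h : √13 < (3.61 : ℝ) := by
    rw [Real.sqrt_lt' (by norm_num)]; norm_num
  unfold β₀; linarith

lemma root_cases {z : ℂ} (hz : z ^ 2 - 3 * z - 1 = 0) (hne : z ≠ (β₀ : ℂ)) : ‖z‖ < 0.32 := by
  have hb : (β₀ : ℂ) ^ 2 = 3 * (β₀ : ℂ) + 1 := by
    have := β₀_sq
    exact_mod_cast this
  have h : (z - β₀) * (z - (3 - β₀)) = 0 := by
    linear_combination hz - hb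
  rcases mul_eq_zero.1 h with h | h
  · exact absurd (sub_eq_zero.1 h) hne
  · have : z = ((3 - β₀ : ℝ) : ℂ) := by
      rw [sub_eq_zero.1 h]; push_cast; ring
    rw [this, Complex.norm_real, Real.norm_eq_abs, abs_lt]
    constructor <;> linarith [β₀_gt, β₀_lt]

lemma irreducible_charpoly : Irreducible (M₀.map (Nat.cast : ℕ → ℚ)).charpoly := by
  rw [charpoly_eq]
  have hdeg : (Polynomial.X ^ 2 - Polynomial.C 3 * Polynomial.X - Polynomial.C 1 :
      Polynomial ℚ).natDegree = 2 := by
    compute_degree!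
  apply Polynomial.irreducible_of_degree_le_three_of_not_isRoot
  · rw [hdeg]; decide
  · intro q hq
    simp only [Polynomial.IsRoot.def, Polynomial.eval_sub, Polynomial.eval_mul,
      Polynomial.eval_pow, Polynomial.eval_X, Polynomial.eval_C] at hq
    have hirr : Irrational √13 := by
      have : Nat.Prime 13 := by norm_num
      simpa using this.irrational_sqrt
    have h13 : (2 * q - 3) ^ 2 = 13 := by linear_combination 4 * hq
    apply hirr
    refine ⟨|2 * q - 3|, ?_⟩
    rw [Rat.cast_abs, ← Real.sqrt_sq_eq_abs]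
    congr 1
    exact_mod_cast h13

lemma β₀_minpoly : minpoly ℚ β₀
    = Polynomial.X ^ 2 - Polynomial.C 3 * Polynomial.X - Polynomial.C 1 := by
  symm
  apply minpoly.eq_of_irreducible_of_monic
  · rw [← charpoly_eq]; exact irreducible_charpoly
  · simp only [map_sub, map_mul, map_pow, Polynomial.aeval_X, Polynomial.aeval_C]
    have := β₀_sq
    simp only [map_ofNat, map_one]
    linarith
  · monicity!

lemma β₀_pisot : IsPisotNumber β₀ := by
  refine ⟨by linarith [β₀_gt], ?_, ?_⟩
  · refine ⟨Polynomial.X ^ 2 - Polynomial.C 3 * Polynomial.X - Polynomial.C 1, by monicity!, ?_⟩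
    simp only [Polynomial.eval₂_sub, Polynomial.eval₂_mul, Polynomial.eval₂_pow,
      Polynomial.eval₂_X, Polynomial.eval₂_C]
    have := β₀_sq
    simp only [map_ofNat, map_one]
    linarith
  · intro z hz hne
    rw [β₀_minpoly] at hz
    simp only [map_sub, map_mul, map_pow, Polynomial.aeval_X, map_ofNat, map_one] at hz
    have := root_cases hz hne
    linarith

lemma β₀_pf : IsPerronFrobeniusEigenvalue M₀ β₀ := by
  refine ⟨⟨![β₀, 1], ?_, ?_⟩, ?_⟩
  · intro a
    fin_cases a
    · simp; linarith [β₀_gt]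
    · simp
  · have := β₀_sq
    ext i
    fin_cases i
    · simp [M₀, Matrix.mulVec, dotProduct, Fin.sum_univ_two]
      linarith
    · simp [M₀, Matrix.mulVec, dotProduct, Fin.sum_univ_two]
  · intro z hz hne
    rw [charpoly_eq] at hz
    simp only [Polynomial.IsRoot.def, Polynomial.eval_sub, Polynomial.eval_mul,
      Polynomial.eval_pow, Polynomial.eval_X, Polynomial.eval_C] at hz
    have := root_cases hz hne
    linarith [β₀_gt]

lemma noble_pisot : noble.IrreduciblePisot :=
  ⟨M₀, noble_matrix, M₀_primitive, irreducible_charpoly, β₀, β₀_pf, β₀_pisot⟩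

/-! ### Windows -/

section Window

variable {d : ℕ}

lemma window_length (x : ℤ → Fin d) (i : ℤ) (n : ℕ) : (window x i n).length = n := by
  simp [window]

lemma window_getElem? (x : ℤ → Fin d) (i : ℤ) (n k : ℕ) (hk : k < n) :
    (window x i n)[k]? = some (x (i + (k : ℕ))) := by
  rw [List.getElem?_eq_getElem (by rw [window_length]; exact hk)]
  simp [window]

lemma window_append (x : ℤ → Fin d) (i : ℤ) (m n : ℕ) :
    window x i (m + n) = window x i m ++ window x (i + (m : ℕ)) n := by
  apply List.ext_getElem?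
  intro k
  rcases lt_or_ge k m with h | h
  · rw [List.getElem?_append_left (by rw [window_length]; exact h), window_getElem? _ _ _ _ h,
      window_getElem? _ _ _ _ (by omega)]
  · rw [List.getElem?_append_right (by rw [window_length]; exact h), window_length]
    rcases lt_or_ge k (m + n) with h' | h'
    · rw [window_getElem? _ _ _ _ h', window_getElem? _ _ _ _ (by omega)]
      congr 2
      push_cast [Nat.cast_sub h]
      ring
    · rw [List.getElem?_eq_none (by rw [window_length]; exact h'),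
        List.getElem?_eq_none (by rw [window_length]; omega)]

lemma window_infix (x : ℤ → Fin d) (i : ℤ) (a m n : ℕ) (h : a + m ≤ n) :
    window x (i + (a : ℕ)) m <:+: window x i n := by
  obtain ⟨b, rfl⟩ := Nat.exists_eq_add_of_le h
  rw [window_append, window_append]
  exact ⟨window x i a, window x (i + ((a + m : ℕ) : ℤ)) b, by simp⟩

lemma exists_of_infix_window {x : ℤ → Fin d} {i : ℤ} {n : ℕ} {u : List (Fin d)}
    (h : u <:+: window x i n) : ∃ a : ℕ, a + u.length ≤ n ∧ window x (i + (a : ℕ)) u.length = u := by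
  obtain ⟨s, t, hst⟩ := h
  have hlen := congrArg List.length hst
  simp only [List.length_append, window_length] at hlen
  refine ⟨s.length, by omega, ?_⟩
  rw [← hlen, window_append, window_append] at hst
  have h1 := List.append_inj hst (by simp [window_length])
  have h2 := List.append_inj h1.1 (by simp [window_length])
  exact h2.2.symm

lemma window_shift (x : ℤ → Fin d) (i : ℤ) (n : ℕ) :
    window (shift x) i n = window x (i + 1) n := by
  unfold window shift
  congr 1
  ext k
  congr 2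
  ring

lemma eq_of_window {x y : ℤ → Fin d} {i j : ℤ} {n : ℕ} (h : window x i n = window y j n)
    (k : ℕ) (hk : k < n) : x (i + (k : ℕ)) = y (j + (k : ℕ)) := by
  have := congrArg (fun l => l[k]?) h
  simp only [window_getElem? _ _ _ _ hk, Option.some.injEq] at this
  exact this

lemma isClosed_window (i : ℤ) (n : ℕ) (P : List (Fin d) → Prop) :
    IsClosed {x : ℤ → Fin d | P (window x i n)} := by
  have hc : Continuous (fun (x : ℤ → Fin d) (k : Fin n) => x (i + ((k : ℕ) : ℤ))) := by
    fun_prop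
  have : {x : ℤ → Fin d | P (window x i n)}
      = (fun (x : ℤ → Fin d) (k : Fin n) => x (i + ((k : ℕ) : ℤ))) ⁻¹'
        {g | P (List.ofFn g)} := rfl
  rw [this]
  exact (isClosed_discrete _).preimage hc

/-- the inverse of the shift -/
def unshift (x : ℤ → Fin d) : ℤ → Fin d := fun i => x (i - 1)

lemma shift_unshift (x : ℤ → Fin d) : shift (unshift x) = x := by
  ext i; simp [shift, unshift]

lemma unshift_shift (x : ℤ → Fin d) : unshift (shift x) = x := by
  ext i; simp [shift, unshift]

lemma shift_injective : Function.Injective (shift (d := d)) :=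
  Function.LeftInverse.injective unshift_shift

lemma continuous_shift : Continuous (shift (d := d)) := by
  unfold shift; fun_prop

lemma shift_iterate (n : ℕ) (x : ℤ → Fin d) (i : ℤ) : shift^[n] x i = x (i + (n : ℕ)) := by
  induction n generalizing x with
  | zero => simp
  | succ n ih =>
    rw [Function.iterate_succ_apply, ih]
    simp only [shift]
    congr 1
    push_cast
    ring

end Window

/-! ### The subsystem -/

/-- All bi-infinite sequences all of whose finite subwords occur in some level word. -/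
def Y₀ : Set (ℤ → Fin 2) := {x | ∀ i n, ∃ N c, window x i n <:+: W N c}

lemma Y₀_closed : IsClosed Y₀ := by
  have : Y₀ = ⋂ (i : ℤ) (n : ℕ), {x | ∃ N c, window x i n <:+: W N c} := by
    ext x; simp [Y₀]
  rw [this]
  exact isClosed_iInter fun i => isClosed_iInter fun n =>
    isClosed_window i n (fun u => ∃ N c, u <:+: W N c)

lemma shift_mem_Y₀ {x : ℤ → Fin 2} (hx : x ∈ Y₀) : shift x ∈ Y₀ := by
  intro i n
  rw [window_shift]
  exact hx _ _

lemma unshift_mem_Y₀ {x : ℤ → Fin 2} (hx : x ∈ Y₀) : unshift x ∈ Y₀ := by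
  intro i n
  have := hx (i - 1) n
  have e : window (unshift x) i n = window x (i - 1) n := by
    have := window_shift (unshift x) (i - 1) n
    rw [shift_unshift, sub_add_cancel] at this
    exact this.symm
  rw [e]
  exact this

lemma shift_image_Y₀ : shift '' Y₀ = Y₀ := by
  ext x
  constructor
  · rintro ⟨y, hy, rfl⟩
    exact shift_mem_Y₀ hy
  · intro hx
    exact ⟨unshift x, unshift_mem_Y₀ hx, shift_unshift x⟩

lemma lt_L (n : ℕ) : n < L n := by
  induction n with
  | zero => simp [L]
  | succ n ih =>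
    have := L_lt_succ n
    omega

lemma Y₀_nonempty : Y₀.Nonempty := by
  let K : ℕ → Set (ℤ → Fin 2) := fun n =>
    {x | ∃ N c, window x (-(n : ℤ)) (2 * n + 1) <:+: W N c}
  have hKcl : ∀ n, IsClosed (K n) := fun n =>
    isClosed_window _ _ (fun u => ∃ N c, u <:+: W N c)
  have hKdec : ∀ n, K (n + 1) ⊆ K n := by
    rintro n x ⟨N, c, h⟩
    refine ⟨N, c, List.IsInfix.trans ?_ h⟩
    have := window_infix x (-((n + 1 : ℕ) : ℤ)) 1 (2 * n + 1) (2 * (n + 1) + 1) (by omega)
    have e : (-((n + 1 : ℕ) : ℤ)) + ((1 : ℕ) : ℤ) = -(n : ℤ) := by push_cast; ring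
    rwa [e] at this
  have hKne : ∀ n, (K n).Nonempty := by
    intro n
    let w := W (2 * n) false
    have hw : 2 * n + 1 ≤ w.length := by
      have := lt_L (2 * n)
      simp only [w, length_W]
      omega
    refine ⟨fun j => w.getD (j + n).toNat 0, 2 * n, false, ?_⟩
    have : window (fun j : ℤ => w.getD (j + n).toNat 0) (-(n : ℤ)) (2 * n + 1)
        = w.take (2 * n + 1) := by
      apply List.ext_getElem?
      intro k
      rcases lt_or_ge k (2 * n + 1) with h | h
      · rw [window_getElem? _ _ _ _ h, List.getElem?_take_of_lt h]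
        have e : (-(n : ℤ) + (k : ℕ) + n).toNat = k := by
          rw [show (-(n : ℤ) + (k : ℕ) + n) = (k : ℤ) by ring]; simp
        simp only [e]
        rw [List.getElem?_eq_getElem (by omega), List.getD_eq_getElem _ _ (by omega)]
      · rw [List.getElem?_eq_none (by rw [window_length]; exact h),
          List.getElem?_eq_none (by rw [List.length_take]; omega)]
    rw [this]
    exact (List.take_prefix _ _).isInfix
  obtain ⟨x, hx⟩ := IsCompact.nonempty_iInter_of_sequence_nonempty_isCompact_isClosed K hKdec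
    hKne (hKcl 0).isCompact hKcl
  rw [Set.mem_iInter] at hx
  refine ⟨x, fun i n => ?_⟩
  obtain ⟨N, c, h⟩ := hx (i.natAbs + n)
  refine ⟨N, c, List.IsInfix.trans ?_ h⟩
  have := window_infix x (-((i.natAbs + n : ℕ) : ℤ)) (i + ((i.natAbs + n : ℕ) : ℤ)).toNat n
    (2 * (i.natAbs + n) + 1) (by omega)
  have e : (-((i.natAbs + n : ℕ) : ℤ)) + (((i + ((i.natAbs + n : ℕ) : ℤ)).toNat : ℕ) : ℤ) = i := by
    omega
  rwa [e] at this

/-! ### The subsystem is minimal -/

lemma exists_window_eq {x : ℤ → Fin 2} (hx : x ∈ Y₀) (N : ℕ) (c : Bool) (i : ℤ) :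
    ∃ a : ℕ, a + L N ≤ 2 * L (N + 2) ∧ window x (i + (a : ℕ)) (L N) = W N c := by
  obtain ⟨M, c', h⟩ := hx i (2 * L (N + 2))
  have h1 := infix_of_infix_W (N := N) h (by rw [window_length]) c
  obtain ⟨a, ha, hw⟩ := exists_of_infix_window h1
  rw [length_W] at ha hw
  exact ⟨a, ha, hw⟩

lemma shift_iterate_mem {Z : Set (ℤ → Fin 2)} (hZ : shift '' Z = Z) (n : ℕ) {x : ℤ → Fin 2}
    (hx : x ∈ Z) : shift^[n] x ∈ Z := by
  induction n with
  | zero => exact hx
  | succ n ih =>
    rw [Function.iterate_succ_apply']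
    rw [← hZ]
    exact ⟨_, ih, rfl⟩

lemma Y₀_minimal {Z : Set (ℤ → Fin 2)} (hZY : Z ⊆ Y₀) (hne : Z.Nonempty) (hcl : IsClosed Z)
    (hinv : shift '' Z = Z) : Z = Y₀ := by
  apply Set.Subset.antisymm hZY
  intro y hy
  obtain ⟨z, hz⟩ := hne
  rw [← hcl.closure_eq]
  rw [mem_closure_iff_seq_limit]
  -- approximate `y` by shifts of `z`
  have key : ∀ n : ℕ, ∃ t : ℕ, ∀ j : ℤ, -(n : ℤ) ≤ j → j ≤ n → shift^[t] z j = y j := by
    intro n
    obtain ⟨N, c, h⟩ := hy (-(n : ℤ)) (2 * n + 1)
    obtain ⟨a, -, ha⟩ := exists_window_eq (hZY hz) N c 0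
    rw [← ha] at h
    obtain ⟨b, -, hb⟩ := exists_of_infix_window h
    rw [window_length] at hb
    refine ⟨a + b + n, fun j hj1 hj2 => ?_⟩
    have h3 := eq_of_window hb (j + n).toNat (by omega)
    rw [shift_iterate]
    have e1 : (0 : ℤ) + (a : ℕ) + (b : ℕ) + ((j + n).toNat : ℕ) = j + ((a + b + n : ℕ) : ℤ) := by
      omega
    have e2 : (-(n : ℤ)) + ((j + n).toNat : ℕ) = j := by omega
    rw [e1, e2] at h3
    exact h3
  choose t ht using key
  refine ⟨fun n => shift^[t n] z, fun n => shift_iterate_mem hinv _ hz, ?_⟩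
  rw [tendsto_pi_nhds]
  intro j
  apply tendsto_atTop_of_eventually_const (i₀ := j.natAbs)
  intro n hn
  exact ht n j (by omega) (by omega)

/-! ### Legality of the level words -/

section Legal

variable {d : ℕ} (θ : RandomSubstitution d)

lemma image_mono {S T : Set (List (Fin d))} (h : S ⊆ T) : θ.image S ⊆ θ.image T := by
  rintro v ⟨w, hw, us, h1, h2⟩
  exact ⟨w, h hw, us, h1, h2⟩

lemma iterate_image_mono (n : ℕ) {S T : Set (List (Fin d))} (h : S ⊆ T) :
    (θ.image)^[n] S ⊆ (θ.image)^[n] T := by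
  induction n generalizing S T with
  | zero => exact h
  | succ n ih => exact ih (image_mono θ h)

/-- concatenations -/
def conc (S T : Set (List (Fin d))) : Set (List (Fin d)) := {v | ∃ s ∈ S, ∃ t ∈ T, v = s ++ t}

lemma image_conc (S T : Set (List (Fin d))) :
    conc (θ.image S) (θ.image T) ⊆ θ.image (conc S T) := by
  rintro v ⟨s, ⟨w, hw, us, h1, rfl⟩, t, ⟨w', hw', us', h1', rfl⟩, rfl⟩
  exact ⟨w ++ w', ⟨w, hw, w', hw', rfl⟩, us ++ us', List.rel_append h1 h1', by simp⟩

lemma iterate_image_conc (n : ℕ) (S T : Set (List (Fin d))) :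
    conc ((θ.image)^[n] S) ((θ.image)^[n] T) ⊆ (θ.image)^[n] (conc S T) := by
  induction n generalizing S T with
  | zero => exact subset_rfl
  | succ n ih =>
    simp only [Function.iterate_succ_apply]
    exact (ih _ _).trans (iterate_image_mono θ n (image_conc θ S T))

lemma append_mem_iterate {n : ℕ} {v₁ v₂ w₁ w₂ : List (Fin d)}
    (h₁ : v₁ ∈ (θ.image)^[n] {w₁}) (h₂ : v₂ ∈ (θ.image)^[n] {w₂}) :
    v₁ ++ v₂ ∈ (θ.image)^[n] {w₁ ++ w₂} := by
  have := iterate_image_conc θ n {w₁} {w₂} ⟨v₁, h₁, v₂, h₂, rfl⟩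
  refine iterate_image_mono θ n ?_ this
  rintro v ⟨s, rfl, t, rfl, rfl⟩
  rfl

lemma mem_iterate_succ {n : ℕ} {a : Fin d} {u v : List (Fin d)} (hu : u ∈ θ.realisations a)
    (hv : v ∈ (θ.image)^[n] {u}) : v ∈ (θ.image)^[n + 1] {[a]} := by
  rw [Function.iterate_succ_apply]
  refine iterate_image_mono θ n ?_ hv
  rintro w rfl
  exact ⟨[a], rfl, [w], List.Forall₂.cons hu List.Forall₂.nil, by simp⟩

end Legal

lemma W_mem_power : ∀ (n : ℕ) (c : Bool), W n c ∈ noble.power n 0
  | 0, c => rfl
  | 1, c => by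
    refine mem_iterate_succ noble (n := 0) (u := W 1 c) ?_ rfl
    cases c <;> decide
  | (n + 2), c => by
    have h1 := W_mem_power (n + 1)
    have h0 := W_mem_power n c
    refine mem_iterate_succ noble (n := n + 1) (u := [0] ++ [0] ++ [0] ++ [1]) (by decide) ?_
    rw [W]
    refine append_mem_iterate noble (append_mem_iterate noble (append_mem_iterate noble
      (h1 c) (h1 c)) (h1 (!c))) ?_
    exact mem_iterate_succ noble (n := n) (u := [0]) (by decide) h0

lemma Y₀_subset : Y₀ ⊆ noble.subshift := by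
  intro x hx i n
  obtain ⟨N, c, h⟩ := hx i n
  exact ⟨N + 1, by omega, 0, W (N + 1) c, W_mem_power _ _, h.trans (W_infix_any' N c c)⟩

lemma Y₀_isMinimalSubsystem : IsMinimalSubsystem noble.subshift Y₀ :=
  ⟨Y₀_subset, Y₀_nonempty, Y₀_closed, shift_image_Y₀,
    fun _ hZY hne hcl hinv => Y₀_minimal hZY hne hcl hinv⟩

/-! ### Invariant measures on the subsystem -/

instance : BorelSpace (Fin 2) := inferInstance
instance : BorelSpace (ℤ → Fin 2) := inferInstance

/-- There is an invariant probability measure carried by `Y₀`. -/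
lemma exists_measure : ∃ (μ : Measure (ℤ → Fin 2)), IsProbabilityMeasure μ ∧
    MeasurePreserving (shift (d := 2)) μ μ ∧ μ Y₀ᶜ = 0 := by
  obtain ⟨x₀, hx₀⟩ := Y₀_nonempty
  have : CompactSpace Y₀ := isCompact_iff_compactSpace.1 Y₀_closed.isCompact
  let T : Y₀ → Y₀ := fun x => ⟨shift x.1, shift_mem_Y₀ x.2⟩
  have hT : Continuous T := by
    apply Continuous.subtype_mk
    exact continuous_shift.comp continuous_subtype_val
  obtain ⟨ν, hν, hinv⟩ := Pool.Agent.Helper60.KB.exists_invariant (⟨x₀, hx₀⟩ : Y₀) T hT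
  have hmeas : Measurable (Subtype.val : Y₀ → (ℤ → Fin 2)) := measurable_subtype_coe
  refine ⟨ν.map Subtype.val, Measure.isProbabilityMeasure_map hmeas.aemeasurable, ?_, ?_⟩
  · refine ⟨continuous_shift.measurable, ?_⟩
    rw [Measure.map_map continuous_shift.measurable hmeas]
    have e : (shift ∘ (Subtype.val : Y₀ → (ℤ → Fin 2))) = Subtype.val ∘ T := rfl
    rw [e, ← Measure.map_map hmeas hT.measurable, hinv.map_eq]
  · rw [Measure.map_apply hmeas Y₀_closed.measurableSet.compl]
    have : (Subtype.val : Y₀ → (ℤ → Fin 2)) ⁻¹' Y₀ᶜ = ∅ := by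
      ext x; simp
    rw [this, measure_empty]

/-- the set of sequences with different letters at the places `i` and `j` -/
def diffSet (i j : ℕ) : Set (ℤ → Fin 2) := {x | x i ≠ x j}

instance decidableDiffSet (x : ℤ → Fin 2) (i j : ℕ) : Decidable (x ∈ diffSet i j) :=
  inferInstanceAs (Decidable (x i ≠ x j))

lemma measurableSet_diffSet (i j : ℕ) : MeasurableSet (diffSet i j) := by
  have h1 : Measurable (fun x : ℤ → Fin 2 => x i) := measurable_pi_apply _
  have h2 : Measurable (fun x : ℤ → Fin 2 => x j) := measurable_pi_apply _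
  exact (measurableSet_eq_fun h1 h2).compl

lemma mism_window_le (x : ℤ → Fin 2) (i j R : ℕ) :
    mism i j (window x 0 R) ≤ ∑ k ∈ Finset.range R, if x ∈ diffSet (k + i) (k + j) then 1 else 0 := by
  unfold mism
  rw [window_length]
  apply Finset.sum_le_sum
  intro k hk
  by_cases h : k + i < R ∧ k + j < R ∧ (window x 0 R)[k + i]? ≠ (window x 0 R)[k + j]?
  · rw [if_pos h, if_pos]
    obtain ⟨h1, h2, h3⟩ := h
    rw [window_getElem? _ _ _ _ h1, window_getElem? _ _ _ _ h2, zero_add, zero_add] at h3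
    intro h4
    exact h3 (by rw [h4])
  · rw [if_neg h]; exact Nat.zero_le _

lemma measure_diffSet_shift {μ : Measure (ℤ → Fin 2)}
    (h : MeasurePreserving (shift (d := 2)) μ μ) (k i j : ℕ) :
    μ (diffSet (k + i) (k + j)) = μ (diffSet i j) := by
  have h1 := (h.iterate k).measure_preimage (measurableSet_diffSet i j).nullMeasurableSet
  rw [← h1]
  congr 1
  ext x
  simp only [diffSet, Set.mem_ofPred_eq, Set.mem_preimage, shift_iterate]
  have e : ∀ i : ℕ, ((k + i : ℕ) : ℤ) = (i : ℤ) + (k : ℤ) := by intro i; push_cast; ring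
  rw [e, e]

/-- In every invariant measure, the letters at places `L n` and `L m` differ with probability
bounded below. -/
lemma measure_diffSet_ge {μ : Measure (ℤ → Fin 2)} [IsProbabilityMeasure μ]
    (h : MeasurePreserving (shift (d := 2)) μ μ) (hY : μ Y₀ᶜ = 0) {m n : ℕ} (hm : 1 ≤ m)
    (hmn : m < n) : (1 / 1664 : ENNReal) ≤ μ (diffSet (L n) (L m)) := by
  set R := 2 * L (n + 3) with hR
  have hRle : R ≤ 128 * L n := by
    have h1 := L_succ_le n
    have h2 := L_succ_le (n + 1)
    have h3 := L_succ_le (n + 2)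
    have e2 : n + 1 + 1 = n + 2 := rfl
    have e3 : n + 2 + 1 = n + 3 := rfl
    rw [e2] at h2
    rw [e3] at h3
    omega
  -- pointwise bound on `Y₀`
  have hpt : ∀ x ∈ Y₀, L n ≤ 13 * ∑ k ∈ Finset.range R,
      if x ∈ diffSet (k + L n) (k + L m) then 1 else 0 := by
    intro x hx
    obtain ⟨a, ha, hw⟩ := exists_window_eq hx (n + 1) false 0
    have h1 := L_le_mism_pair hm hmn false
    rw [← hw] at h1
    have h2 : mism (L n) (L m) (window x (0 + (a : ℕ)) (L (n + 1)))
        ≤ mism (L n) (L m) (window x 0 R) := by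
      apply mism_mono_infix
      exact window_infix x 0 a (L (n + 1)) R (by rw [hR]; exact ha)
    have h3 := mism_window_le x (L n) (L m) R
    omega
  have hint : ∫⁻ x, (L n : ENNReal) ∂μ ≤ ∫⁻ x, 13 * ∑ k ∈ Finset.range R,
      (diffSet (k + L n) (k + L m)).indicator 1 x ∂μ := by
    apply lintegral_mono_ae
    have hae : ∀ᵐ x ∂μ, x ∈ Y₀ := by
      rw [ae_iff]; exact hY
    filter_upwards [hae] with x hx
    have h1 := hpt x hx
    have h2 : ((L n : ℕ) : ENNReal) ≤ ((13 * ∑ k ∈ Finset.range R,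
      if x ∈ diffSet (k + L n) (k + L m) then 1 else 0 : ℕ) : ENNReal) := by
      exact_mod_cast h1
    refine h2.trans (le_of_eq ?_)
    push_cast
    congr 1
    apply Finset.sum_congr rfl
    intro k _
    simp [Set.indicator_apply]
  rw [lintegral_const, measure_univ, mul_one, lintegral_const_mul _ (by
    apply Finset.measurable_sum
    intro k _
    exact measurable_one.indicator (measurableSet_diffSet _ _)),
    lintegral_finsetSum _ (by
      intro k _
      exact measurable_one.indicator (measurableSet_diffSet _ _))] at hint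
  simp only [lintegral_indicator_one (measurableSet_diffSet _ _), measure_diffSet_shift h,
    Finset.sum_const, Finset.card_range, nsmul_eq_mul] at hint
  -- now conclude
  have hL : (L n : ENNReal) ≠ 0 := by
    have := L_pos n
    exact_mod_cast this.ne'
  have hLt : (L n : ENNReal) ≠ ⊤ := ENNReal.natCast_ne_top _
  have h5 : (L n : ENNReal) ≤ L n * (1664 * μ (diffSet (L n) (L m))) := by
    calc (L n : ENNReal) ≤ 13 * (R * μ (diffSet (L n) (L m))) := hint
      _ ≤ 13 * (((128 * L n : ℕ) : ENNReal) * μ (diffSet (L n) (L m))) := by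
          gcongr
      _ = L n * (1664 * μ (diffSet (L n) (L m))) := by
          push_cast; ring
  have h6 : (1 : ENNReal) ≤ 1664 * μ (diffSet (L n) (L m)) := by
    have : (L n : ENNReal) * 1 ≤ L n * (1664 * μ (diffSet (L n) (L m))) := by rwa [mul_one]
    exact (ENNReal.mul_le_mul_iff_right hL hLt).1 this
  rw [ENNReal.div_le_iff (by simp) (by simp), mul_comm]
  exact h6

/-! ### Non-pure point spectrum -/

/-- the indicator function of the letter `0` at the origin -/
noncomputable def g₀ (x : ℤ → Fin 2) : ℂ := if x 0 = 0 then 1 else 0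

lemma measurable_g₀ : Measurable g₀ := by
  unfold g₀
  refine Measurable.ite ?_ measurable_const measurable_const
  exact measurableSet_eq_fun (measurable_pi_apply _) measurable_const

lemma memLp_g₀ (μ : Measure (ℤ → Fin 2)) [IsProbabilityMeasure μ] : MemLp g₀ 2 μ := by
  refine MemLp.of_bound measurable_g₀.aestronglyMeasurable 1 (Filter.Eventually.of_forall ?_)
  intro x
  unfold g₀
  split_ifs <;> simp

lemma norm_sub_ge {μ : Measure (ℤ → Fin 2)} [IsProbabilityMeasure μ]
    (h : MeasurePreserving (shift (d := 2)) μ μ) {c : ENNReal} {i j : ℕ}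
    (hc : c ≤ μ (diffSet i j)) :
    (c ^ (1 / 2 : ℝ)).toReal ≤
      ‖((Lp.compMeasurePreservingₗ ℂ shift h : Lp ℂ 2 μ →ₗ[ℂ] Lp ℂ 2 μ) ^ i) (memLp_g₀ μ).toLp
      - ((Lp.compMeasurePreservingₗ ℂ shift h : Lp ℂ 2 μ →ₗ[ℂ] Lp ℂ 2 μ) ^ j)
        (memLp_g₀ μ).toLp‖ := by
  have hpow : ∀ k : ℕ, ((Lp.compMeasurePreservingₗ ℂ shift h : Lp ℂ 2 μ →ₗ[ℂ] Lp ℂ 2 μ) ^ k)
      (memLp_g₀ μ).toLp = ((memLp_g₀ μ).comp_measurePreserving (h.iterate k)).toLp := by
    intro k
    rw [Module.End.pow_apply]
    have := congrFun (Lp.compMeasurePreserving_iterate (E := ℂ) (p := 2) h k) (memLp_g₀ μ).toLp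
    rw [Lp.toLp_compMeasurePreserving] at this
    exact this
  rw [hpow, hpow, ← MemLp.toLp_sub, Lp.norm_toLp]
  apply ENNReal.toReal_mono
  · exact (((memLp_g₀ μ).comp_measurePreserving (h.iterate i)).sub
      ((memLp_g₀ μ).comp_measurePreserving (h.iterate j))).eLpNorm_ne_top
  have hmeas : AEStronglyMeasurable (g₀ ∘ shift^[i] - g₀ ∘ shift^[j]) μ :=
    (((memLp_g₀ μ).comp_measurePreserving (h.iterate i)).sub
      ((memLp_g₀ μ).comp_measurePreserving (h.iterate j))).aestronglyMeasurable
  have h1 := mul_meas_ge_le_pow_eLpNorm' μ (p := 2) (by norm_num) (by norm_num) hmeas 1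
  have h2 : diffSet i j ⊆ {x | 1 ≤ ‖(g₀ ∘ shift^[i] - g₀ ∘ shift^[j]) x‖ₑ} := by
    intro x hx
    have hx' : x i ≠ x j := hx
    simp only [Set.mem_ofPred_eq, Pi.sub_apply, Function.comp_apply, g₀, shift_iterate, zero_add]
    have hcase : (x i = 0 ∧ x j ≠ 0) ∨ (x i ≠ 0 ∧ x j = 0) := by
      generalize x i = p at hx'
      generalize x j = q at hx'
      revert p q
      decide
    rcases hcase with ⟨h1, h2⟩ | ⟨h1, h2⟩
    · rw [if_pos h1, if_neg h2]; simp
    · rw [if_neg h1, if_pos h2]; simp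
  have h3 : c ≤ eLpNorm (g₀ ∘ shift^[i] - g₀ ∘ shift^[j]) 2 μ ^ (2 : ℝ) := by
    calc c ≤ μ (diffSet i j) := hc
      _ ≤ _ := measure_mono h2
      _ ≤ _ := by simpa using h1
  calc c ^ (1 / 2 : ℝ)
      ≤ (eLpNorm (g₀ ∘ shift^[i] - g₀ ∘ shift^[j]) 2 μ ^ (2 : ℝ)) ^ (1 / 2 : ℝ) := by
        gcongr
    _ = eLpNorm (g₀ ∘ shift^[i] - g₀ ∘ shift^[j]) 2 μ := by
        rw [← ENNReal.rpow_mul]; norm_num

/-- If `μ` has pure point spectrum then the orbit of every `f ∈ L²(μ)` is totally bounded. -/
lemma AP_of_hasPurePointSpectrum {μ : Measure (ℤ → Fin 2)} [IsProbabilityMeasure μ]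
    (h : MeasurePreserving (shift (d := 2)) μ μ) (hpp : HasPurePointSpectrum μ)
    {f : (ℤ → Fin 2) → ℂ} (hf : MemLp f 2 μ) :
    AP (Lp.compMeasurePreservingₗ ℂ shift h : Lp ℂ 2 μ →ₗ[ℂ] Lp ℂ 2 μ) hf.toLp := by
  have hU : ∀ x, ‖(Lp.compMeasurePreservingₗ ℂ shift h : Lp ℂ 2 μ →ₗ[ℂ] Lp ℂ 2 μ) x‖ = ‖x‖ :=
    fun x => Lp.norm_compMeasurePreserving x h
  apply AP_closure hU
  intro ε hε
  obtain ⟨n, g, hg, hfg⟩ := hpp f hf (ENNReal.ofReal ε) (ENNReal.ofReal_pos.2 hε)
  refine ⟨∑ i, (hg i).1.toLp, ?_, ?_⟩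
  · have : ∀ s : Finset (Fin n),
        AP (Lp.compMeasurePreservingₗ ℂ shift h : Lp ℂ 2 μ →ₗ[ℂ] Lp ℂ 2 μ)
          (∑ i ∈ s, (hg i).1.toLp) := by
      classical
      intro s
      induction s using Finset.induction_on with
      | empty => rw [Finset.sum_empty]; exact AP_zero _
      | insert i s hi ih =>
        rw [Finset.sum_insert hi]
        refine AP_add ?_ ih
        obtain ⟨z, hz⟩ := (hg i).2
        refine AP_eigen hU (z := z) ?_
        show Lp.compMeasurePreserving shift h ((hg i).1.toLp) = _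
        rw [Lp.toLp_compMeasurePreserving, ← MemLp.toLp_const_smul]
        rw [MemLp.toLp_eq_toLp_iff]
        filter_upwards [hz] with x hx
        simpa using hx
    exact this Finset.univ
  · have hsum : MemLp (∑ i, g i) 2 μ := memLp_finsetSum' _ (fun i _ => (hg i).1)
    have e : (∑ i, (hg i).1.toLp : Lp ℂ 2 μ) = hsum.toLp := by
      have : ∀ (s : Finset (Fin n)) (hs : MemLp (∑ i ∈ s, g i) 2 μ),
          (∑ i ∈ s, (hg i).1.toLp : Lp ℂ 2 μ) = hs.toLp := by
        classical
        intro s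
        induction s using Finset.induction_on with
        | empty =>
          intro hs
          rw [Finset.sum_empty]
          symm
          exact MemLp.toLp_zero hs
        | insert i s hi ih =>
          intro hs
          rw [Finset.sum_insert hi, ih (memLp_finsetSum' _ (fun i _ => (hg i).1)),
            ← MemLp.toLp_add, MemLp.toLp_eq_toLp_iff, Finset.sum_insert hi]
      exact this Finset.univ hsum
    rw [e, ← MemLp.toLp_sub, Lp.norm_toLp]
    have e2 : (f - ∑ i, g i) = fun x => f x - ∑ i, g i x := by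
      ext x; simp
    rw [e2]
    have := ENNReal.toReal_lt_toReal (ne_top_of_lt hfg) ENNReal.ofReal_ne_top |>.2 hfg
    rwa [ENNReal.toReal_ofReal hε.le] at this

/-- No invariant probability measure carried by `Y₀` has pure point spectrum. -/
lemma not_hasPurePointSpectrum {μ : Measure (ℤ → Fin 2)} [IsProbabilityMeasure μ]
    (h : MeasurePreserving (shift (d := 2)) μ μ) (hY : μ Y₀ᶜ = 0) :
    ¬ HasPurePointSpectrum μ := by
  intro hpp
  have hδ : 0 < ((1 / 1664 : ENNReal) ^ (1 / 2 : ℝ)).toReal := by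
    apply ENNReal.toReal_pos
    · apply ne_of_gt
      apply ENNReal.rpow_pos
      · simp
      · simp
    · apply ENNReal.rpow_ne_top_of_nonneg
      · norm_num
      · simp
  obtain ⟨ι, hι, c, hc⟩ := AP_of_hasPurePointSpectrum h hpp (memLp_g₀ μ) _ hδ
  have hs : ∀ i j, i < j → ((1 / 1664 : ENNReal) ^ (1 / 2 : ℝ)).toReal ≤
      ‖((Lp.compMeasurePreservingₗ ℂ shift h : Lp ℂ 2 μ →ₗ[ℂ] Lp ℂ 2 μ) ^ (L (j + 1)))
        (memLp_g₀ μ).toLp
      - ((Lp.compMeasurePreservingₗ ℂ shift h : Lp ℂ 2 μ →ₗ[ℂ] Lp ℂ 2 μ) ^ (L (i + 1)))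
        (memLp_g₀ μ).toLp‖ := by
    intro i j hij
    exact norm_sub_ge h (measure_diffSet_ge h hY (by omega) (by omega))
  obtain ⟨i, j, hij, hcij⟩ := Finite.exists_ne_map_eq_of_infinite (fun n => c (L (n + 1)))
  rcases lt_or_gt_of_ne hij with h' | h'
  · exact absurd (hc _ _ hcij.symm) (not_lt.2 (hs i j h'))
  · exact absurd (hc _ _ hcij) (not_lt.2 (hs j i h'))


end Pool.Agent.Helper60.RandomPisot
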